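import Pool.Agent.Lib.MP_1ef7cf_nt_s.Dw
import Pool.Agent.Lib.MP_1ef7cf_nt_r.V1

/-!
# TASK X1: basic facts on `AbR`, `IsTr`, `Lw`

PROOF. `AbR.sup`: `R ⊔ R'` is finite and Galois over `K` (instances for `⊔`), an automorphism is determined by its restrictions to `R`
and `R'` (`act_ext`, `IntermediateField.sup` / `adjoin_induction`; see `isAbelianGalois_sup`-like lemmas, grep `IsAbelianGalois.*⊔` in
MP_1ef7cf_nt*). `AbR.of_le`: `IsAbelianGalois.tower_bot` (see `isAbelianGalois_of_le`, used in MP_1ef7cf_nt_e/INR.lean). `act_a`: `act_res`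
and `Art (Art.symm _) = _`. `a_surj`: `res_surjective`. `Lw.mono`: an automorphism of `R'` restricts to `R` (`act_res`). `a_pr`: `IsRCF.res_art`,
as in `Lv.act_art_pr` (nt_r/V1), and injectivity of `Art`. `Hw.exists_ge`: `Hw.lw`, `AbR.sup`, `Lw.mono`. `act_pos`: `ev > 0`.
-/

set_option autoImplicit false

open NumberField IsDedekindDomain nonZeroDivisors IntermediateField

namespace Pool.Agent.STs

open Pool.Agent.ST
open Pool.Agent.STr (Lz ev InX)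

variable {K : Type*} [Field K] [NumberField K] [Algebra K ℝ] {σ₂ : K →+* ℝ} {n m m' : Ideal (𝓞 K)}
  {R R' : IntermediateField K ℝ}

lemma AbR.abel (h : AbR R) : IsAbelianGalois K R := by
  have := h.gal
  exact isAbelianGalois_of_comm h.comm

lemma AbR.finite (h : AbR R) : Finite (R ≃ₐ[K] R) := by
  have := h.fd
  infer_instance

lemma AbR.numberField (h : AbR R) : NumberField R := by
  have := h.fd
  exact numberField_of_fd R

lemma X1_of_abel (h1 : FiniteDimensional K R) (h2 : IsAbelianGalois K R) : AbR R :=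
  ⟨h1, inferInstance, fun σ τ => mul_comm' σ τ⟩

lemma AbR.sup (h : AbR R) (h' : AbR R') : AbR (R ⊔ R') := by
  have h1 := h.fd
  have h2 := h'.fd
  have h3 := h.abel
  have h4 := h'.abel
  exact X1_of_abel (IntermediateField.finiteDimensional_sup R R') isAbelianGalois_sup

lemma AbR.of_le (h : AbR R') (hle : R ≤ R') : AbR R := by
  have h1 := h.fd
  have h2 := h.abel
  exact X1_of_abel
    (FiniteDimensional.of_injective (inclusion hle).toLinearMap (inclusion hle).injective)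
    (isAbelianGalois_of_le hle)

lemma AbR.rcf {H : IntermediateField K ℝ} {Art : RayClassGroup σ₂ m ≃* (H ≃ₐ[K] H)}
    (hr : IsRayClassField σ₂ m H Art) : AbR H :=
  ⟨hr.finite, hr.galois, hr.isRCF.comm⟩

lemma IsTr.one' (hmem : ∀ A, ev σ₂ m A ∈ R) : IsTr σ₂ m (1 : R ≃ₐ[K] R) 1 := by
  intro A
  rw [act_one_left (hmem A), mul_one]

lemma IsTr.mul (hmem : ∀ A, ev σ₂ m A ∈ R) {σ τ : R ≃ₐ[K] R} {B C : RayClassGroup σ₂ m} (h : IsTr σ₂ m σ B)
    (h' : IsTr σ₂ m τ C) : IsTr σ₂ m (σ * τ) (B * C) := by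
  intro A
  rw [act_comp _ _ (hmem A), h' A, h (A * C), mul_assoc, mul_comm C B]

lemma IsTr.pow (hmem : ∀ A, ev σ₂ m A ∈ R) {σ : R ≃ₐ[K] R} {B : RayClassGroup σ₂ m} (h : IsTr σ₂ m σ B) (k : ℕ) :
    IsTr σ₂ m (σ ^ k) (B ^ k) := by
  induction k with
  | zero =>
    rw [pow_zero, pow_zero]
    exact IsTr.one' hmem
  | succ k ih =>
    rw [pow_succ, pow_succ]
    exact ih.mul hmem h

/-- translations of the restriction -/
lemma IsTr.res_iff (hle : R ≤ R') [Normal K R] (hmem : ∀ A, ev σ₂ m A ∈ R) {σ : R' ≃ₐ[K] R'}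
    {B : RayClassGroup σ₂ m} : IsTr σ₂ m (res hle σ) B ↔ IsTr σ₂ m σ B := by
  constructor
  · intro h A
    rw [← act_res hle σ (hmem A)]
    exact h A
  · intro h A
    rw [act_res hle σ (hmem A)]
    exact h A

lemma X1_a_def (L : Lw σ₂ m R) [Normal K L.H] (σ : R ≃ₐ[K] R) : L.Art (L.a σ) = res L.le σ :=
  L.Art.apply_symm_apply _

lemma Lw.act_a (L : Lw σ₂ m R) (σ : R ≃ₐ[K] R) {x : ℝ} (hx : x ∈ L.H) :
    act (L.Art (L.a σ)) x = act σ x := by
  have := L.rcf.galois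
  rw [X1_a_def, act_res _ _ hx]

lemma Lw.a_eq (L : Lw σ₂ m R) {σ : R ≃ₐ[K] R} {C : RayClassGroup σ₂ m}
    (h : ∀ x ∈ L.H, act σ x = act (L.Art C) x) : L.a σ = C := by
  apply L.Art.injective
  apply act_ext
  intro x hx
  rw [L.act_a σ hx, h x hx]

lemma Lw.a_surj (hR : AbR R) (L : Lw σ₂ m R) : Function.Surjective L.a := by
  have := L.rcf.galois
  have := hR.gal
  intro C
  obtain ⟨γ, hγ⟩ := res_surjective L.le (L.Art C)
  refine ⟨γ, L.Art.injective ?_⟩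
  rw [X1_a_def, hγ]

/-- the same level in a larger field -/
noncomputable def Lw.mono (L : Lw σ₂ m R) (hle : R ≤ R') (hR : AbR R) : Lw σ₂ m R' where
  H := L.H
  Art := L.Art
  rcf := L.rcf
  le := L.le.trans hle
  mem A := hle (L.mem A)
  tr := by
    intro σ
    have := hR.gal
    obtain ⟨B, hB⟩ := L.tr (res hle σ)
    exact ⟨B, (IsTr.res_iff hle L.mem).1 hB⟩

lemma Lw.mono_a (L : Lw σ₂ m R) (hle : R ≤ R') (hR : AbR R) [Normal K R] (σ : R' ≃ₐ[K] R') :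
    (L.mono hle hR).a σ = L.a (res hle σ) := by
  apply Lw.a_eq
  intro x hx
  have hx' : x ∈ L.H := hx
  have h1 := L.act_a (res hle σ) hx'
  rw [act_res hle σ (L.le hx')] at h1
  exact h1.symm

lemma Lw.le_H {R₁ R₂ : IntermediateField K ℝ} (L : Lw σ₂ m R₁) (L' : Lw σ₂ m' R₂) (hle : m' ≤ m) (hm' : m' ≠ ⊥) :
    L.H ≤ L'.H :=
  IsRCF.le hle hm' Set.finite_empty Set.finite_empty L'.rcf.isRCF L.rcf.isRCF

lemma X1_act_art_pr {R₁ R₂ : IntermediateField K ℝ} (L : Lw σ₂ m R₁) (L' : Lw σ₂ m' R₂) (hle : m' ≤ m)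
    (hm' : m' ≠ ⊥) (C : RayClassGroup σ₂ m') {x : ℝ}
    (hx : x ∈ L.H) : act (L'.Art C) x = act (L.Art (pr σ₂ hle C)) x := by
  have := L.rcf.galois
  rw [← IsRCF.res_art hle hm' Set.finite_empty Set.finite_empty L'.rcf.isRCF L.rcf.isRCF
    (L.le_H L' hle hm') C, act_res _ _ hx]

lemma Lw.a_pr (L : Lw σ₂ m R) (L' : Lw σ₂ m' R) (hle : m' ≤ m) (hm' : m' ≠ ⊥) (σ : R ≃ₐ[K] R) :
    pr σ₂ hle (L'.a σ) = L.a σ := by
  symm
  apply L.a_eq
  intro x hx
  rw [← X1_act_art_pr L L' hle hm' _ hx, L'.act_a σ (L.le_H L' hle hm' hx)]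

/-- `a` does not depend on the choice of the ray class field -/
lemma Lw.a_congr (hm : m ≠ ⊥) (L L' : Lw σ₂ m R) (σ : R ≃ₐ[K] R) : L.a σ = L'.a σ := by
  have h := L.a_pr L' le_rfl hm σ
  rw [← h, pr_refl]

lemma Lw.act_pos (L : Lw σ₂ m R) (A : RayClassGroup σ₂ m) (σ : R ≃ₐ[K] R) : 0 < act σ (ev σ₂ m A) := by
  obtain ⟨B, hB⟩ := L.tr σ
  rw [hB A]
  exact Pool.Agent.STr.ev_pos _

theorem Hw.exists_ge (hw : Hw σ₂ n) (hR : AbR R) (hm : m ≠ ⊥) (hnm : n ∣ m) :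
    ∃ R' : IntermediateField K ℝ, R ≤ R' ∧ AbR R' ∧ Nonempty (Lw σ₂ m R') := by
  obtain ⟨R₁, h1, ⟨L⟩⟩ := hw.lw m hm hnm
  exact ⟨R ⊔ R₁, le_sup_left, hR.sup h1, ⟨L.mono le_sup_right h1⟩⟩

end Pool.Agent.STs
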