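import Pool.Agent.Lib.MP_1ef7cf_nt_s.Hx2

/-!
# Q1 and automorphisms of `ℂ`: definitions

`AbR R`: the subfield `R` of `ℝ` is finite, Galois and abelian over `K`. `IsTr σ₂ m σ B`: the automorphism `σ` of
`R/K` acts on the numbers `ε_m(A) = ev σ₂ m A` as the translation by `B`. `Lw σ₂ m R`: the field `R` contains the
ray class field `H` of modulus `m ∞₂` and the numbers `ε_m(A)`, and every automorphism of `R/K` acts on them by
some translation. `L.a σ`: the class `C` with `Art C = σ` on `H`. `Hw σ₂ n`: the hypotheses. `IsPh L χ Φ`: `Φ` is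
the character `σ ↦ χ(B)` of `Gal(R/K)`, `B` any translation of `σ` (it exists if the `χ`-component of `log ε` is
not zero). GOAL: `Φ = χ ∘ a`.
-/

set_option autoImplicit false

open NumberField IsDedekindDomain nonZeroDivisors IntermediateField

namespace Pool.Agent.STs

open Pool.Agent.ST
open Pool.Agent.STr (Lz ev InX SS EE UU Nw chQ)

variable {K : Type*} [Field K] [NumberField K] [Algebra K ℝ]

/-- finite and abelian over `K` -/
structure AbR (R : IntermediateField K ℝ) : Prop where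
  fd : FiniteDimensional K R
  gal : IsGalois K R
  comm : ∀ σ τ : R ≃ₐ[K] R, σ * τ = τ * σ

/-- `σ` acts on `ε_m` as the translation by `B` -/
def IsTr (σ₂ : K →+* ℝ) (m : Ideal (𝓞 K)) {R : IntermediateField K ℝ} (σ : R ≃ₐ[K] R)
    (B : RayClassGroup σ₂ m) : Prop :=
  ∀ A, act σ (ev σ₂ m A) = ev σ₂ m (A * B)

/-- the field `R` and the modulus `m` -/
structure Lw (σ₂ : K →+* ℝ) (m : Ideal (𝓞 K)) (R : IntermediateField K ℝ) where
  H : IntermediateField K ℝ
  Art : RayClassGroup σ₂ m ≃* (H ≃ₐ[K] H)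
  rcf : IsRayClassField σ₂ m H Art
  le : H ≤ R
  mem : ∀ A, ev σ₂ m A ∈ R
  tr : ∀ σ : R ≃ₐ[K] R, ∃ B, IsTr σ₂ m σ B

/-- the class of an automorphism -/
noncomputable def Lw.a {σ₂ : K →+* ℝ} {m : Ideal (𝓞 K)} {R : IntermediateField K ℝ} (L : Lw σ₂ m R) :
    (R ≃ₐ[K] R) →* RayClassGroup σ₂ m :=
  haveI := L.rcf.galois
  L.Art.symm.toMonoidHom.comp (res L.le)

/-- `Φ` is the character `σ ↦ χ(B)`, `B` a translation of `σ` -/
def IsPh {σ₂ : K →+* ℝ} {m : Ideal (𝓞 K)} {R : IntermediateField K ℝ} (χ : RayClassGroup σ₂ m →* ℂˣ)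
    (Φ : (R ≃ₐ[K] R) →* ℂˣ) : Prop :=
  ∀ σ B, IsTr σ₂ m σ B → Φ σ = χ B

/-- the hypotheses: the ray class fields exist, and the automorphisms act by translations -/
structure Hw (σ₂ : K →+* ℝ) (n : Ideal (𝓞 K)) : Prop extends Hx σ₂ n where
  lw : ∀ m : Ideal (𝓞 K), m ≠ ⊥ → n ∣ m → ∃ R : IntermediateField K ℝ, AbR R ∧ Nonempty (Lw σ₂ m R)

end Pool.Agent.STs
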