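import Mathlib

/-!
# Automorphisms of an algebraically closed field over a subfield

`K` a field, `C` an algebraically closed extension (not assumed algebraic), e.g. `K` real quadratic and `C = ℂ`.
-/

namespace Pool.Agent.STs.AutC

open MvPolynomial IntermediateField

section core

variable {F C : Type*} [Field F] [Field C] [IsAlgClosed C] [Algebra F C] {ι : Type*}

/-- A ring automorphism of `F[X_i]` extends to `C ⊇ F(v_i)`, `v` a transcendence basis. -/
theorem core {v : ι → C} (hv : IsTranscendenceBasis F v)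
    (φ : MvPolynomial ι F ≃+* MvPolynomial ι F) :
    ∃ s : C ≃+* C, ∀ p, s (aeval v p) = aeval v (φ p) := by
  have := IsAlgClosed.isAlgClosure_of_transcendence_basis v hv
  let e : Algebra.adjoin F (Set.range v) ≃+* Algebra.adjoin F (Set.range v) :=
    (hv.1.aevalEquiv.symm.toRingEquiv.trans φ).trans hv.1.aevalEquiv.toRingEquiv
  refine ⟨IsAlgClosure.equivOfEquiv C C e, fun p => ?_⟩
  have h1 : (aeval v p : C) = algebraMap (Algebra.adjoin F (Set.range v)) C (hv.1.aevalEquiv p) := by
    simp
  rw [h1, IsAlgClosure.equivOfEquiv_algebraMap]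
  simp [e]

end core

variable {K C : Type*} [Field K] [Field C] [IsAlgClosed C] [Algebra K C]

/-- (a0) an automorphism of the algebraic closure of `K` in `C` extends to `C`. -/
theorem ext_closure (σ : algebraicClosure K C ≃ₐ[K] algebraicClosure K C) :
    ∃ s : C ≃ₐ[K] C, ∀ x : algebraicClosure K C, s x = σ x := by
  obtain ⟨ι, v, hv⟩ := exists_isTranscendenceBasis' (algebraicClosure K C) C
  obtain ⟨s, hs⟩ := core hv (MvPolynomial.mapEquiv ι σ.toRingEquiv)
  have hs' : ∀ x : algebraicClosure K C, s x = σ x := by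
    intro x
    have := hs (MvPolynomial.C x)
    simpa using this
  refine ⟨AlgEquiv.ofRingEquiv (f := s) fun x => ?_, fun x => hs' x⟩
  have h2 := hs' (algebraMap K (algebraicClosure K C) x)
  rw [AlgEquiv.commutes] at h2
  simpa using h2

/-- (a) every `K`-embedding of an algebraic subfield extends to an automorphism of `C` over `K`. -/
theorem ext (E : IntermediateField K C) [Algebra.IsAlgebraic K E] (g : E →ₐ[K] C) :
    ∃ s : C ≃ₐ[K] C, ∀ x : E, s x = g x := by
  have hE : E ≤ algebraicClosure K C := le_algebraicClosure K C E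
  let _ : Algebra E (algebraicClosure K C) := (IntermediateField.inclusion hE).toRingHom.toAlgebra
  have : IsScalarTower K E (algebraicClosure K C) := IsScalarTower.of_algebraMap_eq fun _ => rfl
  have : Algebra.IsAlgebraic E (algebraicClosure K C) := Algebra.IsAlgebraic.tower_top (K := K) E
  obtain ⟨G, hG⟩ := IsAlgClosed.surjective_domRestrict_of_isAlgebraic
    (K := K) (L := E) (M := C) (E := algebraicClosure K C) g
  have hmem : ∀ x : algebraicClosure K C, G x ∈ algebraicClosure K C := fun x => by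
    rw [mem_algebraicClosure_iff]
    exact ((Algebra.IsAlgebraic.isAlgebraic (R := K) x)).algHom G
  let σ0 : algebraicClosure K C →ₐ[K] algebraicClosure K C :=
    G.codRestrict (algebraicClosure K C).toSubalgebra hmem
  have hbij : Function.Bijective σ0 := Algebra.IsAlgebraic.algHom_bijective σ0
  obtain ⟨s, hs⟩ := ext_closure (AlgEquiv.ofBijective σ0 hbij)
  refine ⟨s, fun x => ?_⟩
  have h1 := hs (IntermediateField.inclusion hE x)
  have h2 : G (IntermediateField.inclusion hE x) = g x := by
    exact congrArg (fun f : E →ₐ[K] C => f x) hG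
  have h3 : ((IntermediateField.inclusion hE x : algebraicClosure K C) : C) = x := rfl
  rw [h3] at h1
  rw [h1]
  exact h2

/-- (b) a transcendental element can be translated by any element of `K`. -/
theorem translate {x : C} (hx : Transcendental K x) (n : K) :
    ∃ s : C ≃ₐ[K] C, s x = x + algebraMap K C n := by
  classical
  obtain ⟨t, hxt, ht⟩ := exists_isTranscendenceBasis_superset (R := K) (A := C) (s := {x})
    (algebraicIndependent_unique_type_iff.mpr hx)
  have hx' : x ∈ t := hxt rfl
  let c : t → K := fun i => if i = ⟨x, hx'⟩ then n else 0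
  let φ : MvPolynomial t K ≃ₐ[K] MvPolynomial t K := AlgEquiv.ofAlgHom
    (aeval fun i => X i + MvPolynomial.C (c i)) (aeval fun i => X i - MvPolynomial.C (c i))
    (by ext i; simp) (by ext i; simp)
  obtain ⟨s, hs⟩ := core ht φ.toRingEquiv
  refine ⟨AlgEquiv.ofRingEquiv (f := s) fun k => ?_, ?_⟩
  · have := hs (MvPolynomial.C k)
    simpa [φ] using this
  · have := hs (X ⟨x, hx'⟩)
    simpa [φ, c] using this

/-- (b) an element with finite orbit is algebraic. -/
theorem isAlgebraic_of_finite [Infinite K] {x : C}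
    (h : {y : C | ∃ s : C ≃ₐ[K] C, s x = y}.Finite) : IsAlgebraic K x := by
  by_contra hx
  have hinj : Function.Injective fun n : K => x + algebraMap K C n := by
    intro a b hab
    exact (algebraMap K C).injective (add_left_cancel hab)
  refine (Set.infinite_range_of_injective hinj).mono ?_ h
  rintro _ ⟨n, rfl⟩
  exact translate hx n

/-- (c) the conjugates of an algebraic element are its images. -/
theorem exists_of_root {x y : C} (hx : IsAlgebraic K x) (hy : Polynomial.aeval y (minpoly K x) = 0) :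
    ∃ s : C ≃ₐ[K] C, s x = y := by
  have hx' : x ∈ algebraicClosure K C := (mem_algebraicClosure_iff).2 hx
  have hy' : y ∈ algebraicClosure K C := by
    rw [mem_algebraicClosure_iff]
    exact ⟨minpoly K x, minpoly.ne_zero hx.isIntegral, hy⟩
  have halg : IsAlgebraic K (⟨x, hx'⟩ : algebraicClosure K C) := Algebra.IsAlgebraic.isAlgebraic _
  have : Normal K (algebraicClosure K C) := IsAlgClosure.normal K _
  have hmin : minpoly K (⟨x, hx'⟩ : algebraicClosure K C) = minpoly K x :=
    (minpoly.algebraMap_eq (algebraMap (algebraicClosure K C) C).injective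
      (⟨x, hx'⟩ : algebraicClosure K C)).symm
  obtain ⟨σ, hσ⟩ := minpoly.exists_algEquiv_of_root' (K := K) (L := algebraicClosure K C)
    (x := ⟨y, hy'⟩) (y := ⟨x, hx'⟩) halg (by
      rw [hmin]
      apply (algebraMap (algebraicClosure K C) C).injective
      rw [← Polynomial.aeval_algebraMap_apply, map_zero]
      exact hy)
  obtain ⟨s, hs⟩ := ext_closure σ
  refine ⟨s, ?_⟩
  have := hs ⟨x, hx'⟩
  rw [hσ] at this
  exact this

omit [IsAlgClosed C] in
/-- (c) converse: an automorphism maps a root to a root. -/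
theorem root_of_apply (s : C ≃ₐ[K] C) (x : C) : Polynomial.aeval (s x) (minpoly K x) = 0 := by
  have h : Polynomial.aeval (s x) (minpoly K x) = s (Polynomial.aeval x (minpoly K x)) :=
    Polynomial.aeval_algHom_apply (s : C →ₐ[K] C) x _
  rw [h, minpoly.aeval, map_zero]

theorem normal_adjoin_of_splits {F E : Type*} [Field F] [Field E] [Algebra F E] (S : Set E)
    (h : ∀ x ∈ S, IsIntegral F x ∧
      ((minpoly F x).map (algebraMap F (IntermediateField.adjoin F S))).Splits) :
    Normal F (IntermediateField.adjoin F S) := by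
  have halg : Algebra.IsAlgebraic F (IntermediateField.adjoin F S) :=
    IntermediateField.isAlgebraic_adjoin fun x hx => (h x hx).1
  rw [normal_iff]
  intro x
  refine ⟨Algebra.IsIntegral.isIntegral x, ?_⟩
  have h1 : minpoly F x = minpoly F (x : E) :=
    (minpoly.algebraMap_eq (algebraMap (IntermediateField.adjoin F S) E).injective x).symm
  rw [h1]
  exact IntermediateField.splits_of_mem_adjoin (splits := h) (hx := x.2)

section real

variable {K : Type*} [Field K] [Algebra K ℝ] {ι : Type*}

/-- (d) hypothesis: every automorphism of `ℂ` over `K` permutes the real numbers `ε i`. -/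
def Perm (K : Type*) [Field K] [Algebra K ℝ] {ι : Type*} (ε : ι → ℝ) : Prop :=
  ∀ (s : ℂ ≃ₐ[K] ℂ) (i : ι), ∃ j : ι, s (ε i : ℂ) = (ε j : ℂ)

theorem Perm.isAlgebraic [CharZero K] [Finite ι] {ε : ι → ℝ} (h : Perm K ε) (i : ι) :
    IsAlgebraic K (ε i) := by
  have h1 : IsAlgebraic K (ε i : ℂ) := by
    refine isAlgebraic_of_finite ((Set.finite_range fun j => (ε j : ℂ)).subset ?_)
    rintro _ ⟨s, rfl⟩
    obtain ⟨j, hj⟩ := h s i
    exact ⟨j, hj.symm⟩
  have h2 : (ε i : ℂ) = algebraMap ℝ ℂ (ε i) := rfl
  rw [h2, isAlgebraic_algebraMap_iff (algebraMap ℝ ℂ).injective] at h1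
  exact h1

/-- The field `K(ε)`. -/
noncomputable def Fld (K : Type*) [Field K] [Algebra K ℝ] {ι : Type*} (ε : ι → ℝ) :
    IntermediateField K ℝ :=
  IntermediateField.adjoin K (Set.range ε)

theorem mem_Fld (ε : ι → ℝ) (i : ι) : ε i ∈ Fld K ε :=
  IntermediateField.subset_adjoin K _ ⟨i, rfl⟩

theorem Perm.finiteDimensional [CharZero K] [Finite ι] {ε : ι → ℝ} (h : Perm K ε) :
    FiniteDimensional K (Fld K ε) := by
  have := (Set.finite_range ε).to_subtype
  refine IntermediateField.finiteDimensional_adjoin ?_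
  rintro _ ⟨i, rfl⟩
  exact (h.isAlgebraic i).isIntegral

/-- the roots of the minimal polynomial of `ε i` are among the `ε j`. -/
theorem Perm.splits [CharZero K] [Finite ι] {ε : ι → ℝ} (h : Perm K ε) (i : ι) :
    ((minpoly K (ε i)).map (algebraMap K (Fld K ε))).Splits := by
  have h0 : ((minpoly K (ε i)).map (algebraMap K ℂ)).Splits := IsAlgClosed.splits _
  have h1 : (minpoly K (ε i)).map (algebraMap K ℂ)
      = ((minpoly K (ε i)).map (algebraMap K (Fld K ε))).map (algebraMap (Fld K ε) ℂ) := by
    rw [Polynomial.map_map]; rfl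
  rw [h1] at h0
  refine h0.of_splits_map_of_injective (algebraMap (Fld K ε) ℂ).injective ?_
  intro a ha
  rw [← h1] at ha
  have ha' : Polynomial.aeval a (minpoly K (ε i)) = 0 := by
    rw [← Polynomial.eval_map_algebraMap]
    exact (Polynomial.mem_roots'.1 ha).2
  have h2 : minpoly K (ε i : ℂ) = minpoly K (ε i) :=
    minpoly.algebraMap_eq (algebraMap ℝ ℂ).injective (ε i)
  rw [← h2] at ha'
  have h3 : IsAlgebraic K (ε i : ℂ) := (h.isAlgebraic i).algebraMap
  obtain ⟨s, hs⟩ := exists_of_root h3 ha'
  obtain ⟨j, hj⟩ := h s i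
  exact ⟨⟨ε j, mem_Fld ε j⟩, by rw [← hs, hj]; rfl⟩

theorem Perm.normal [CharZero K] [Finite ι] {ε : ι → ℝ} (h : Perm K ε) : Normal K (Fld K ε) := by
  refine normal_adjoin_of_splits (Set.range ε) ?_
  rintro _ ⟨i, rfl⟩
  exact ⟨(h.isAlgebraic i).isIntegral, h.splits i⟩

theorem Perm.isGalois [CharZero K] [Finite ι] {ε : ι → ℝ} (h : Perm K ε) : IsGalois K (Fld K ε) := by
  have := h.finiteDimensional
  have := h.normal
  exact ⟨⟩

/-- every automorphism of a subfield `R ⊂ ℝ`, algebraic over `K`, extends to an automorphism of `ℂ`. -/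
theorem lift_real (R : IntermediateField K ℝ) [Algebra.IsAlgebraic K R] (g : R ≃ₐ[K] R) :
    ∃ s : ℂ ≃ₐ[K] ℂ, ∀ x : R, s ((x : ℝ) : ℂ) = ((g x : ℝ) : ℂ) := by
  let j : ℝ →ₐ[K] ℂ := IsScalarTower.toAlgHom K ℝ ℂ
  let E : IntermediateField K ℂ := R.map j
  let e : R ≃ₐ[K] E := R.equivMap j
  have : Algebra.IsAlgebraic K E := e.isAlgebraic
  obtain ⟨s, hs⟩ := ext E ((j.comp R.val).comp ((g : R →ₐ[K] R).comp (e.symm : E →ₐ[K] R)))
  refine ⟨s, fun x => ?_⟩
  have := hs (e x)
  have h1 : ((e x : E) : ℂ) = ((x : ℝ) : ℂ) := rfl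
  rw [h1] at this
  rw [this]
  simp [j]

/-- every automorphism of `ℂ` over `K` restricts to a normal subfield of `ℝ`. -/
theorem restrict_real (R : IntermediateField K ℝ) [Normal K R] (s : ℂ ≃ₐ[K] ℂ) :
    ∃ g : R ≃ₐ[K] R, ∀ x : R, s ((x : ℝ) : ℂ) = ((g x : ℝ) : ℂ) := by
  refine ⟨s.restrictNormal R, fun x => ?_⟩
  exact (s.restrictNormal_commutes R x).symm

end real

end Pool.Agent.STs.AutC
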