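import Pool.Agent.Lib.MP_1ef7cf_nt_s.AutC
import Pool.Agent.Lib.MP_1ef7cf_nt.Act

/-!
# From automorphisms of `ℂ` to a real abelian field
-/

set_option autoImplicit false

open IntermediateField

namespace Pool.Agent.STs

open Pool.Agent.ST

/-- If every automorphism of `ℂ` over `K ⊂ ℝ` acts on the real numbers `ε A` by a translation of the finite
abelian group `C`, then `K(ε)` is a finite abelian extension of `K`, and its Galois group acts by translations. -/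
theorem exists_field {K : Type*} [Field K] [CharZero K] [Algebra K ℝ] {C : Type*} [CommGroup C] [Finite C]
    (ε : C → ℝ)
    (h : ∀ s : ℂ ≃+* ℂ, (∀ x : K, s ((algebraMap K ℝ x : ℝ) : ℂ) = ((algebraMap K ℝ x : ℝ) : ℂ)) →
      ∃ B, ∀ A, s (ε A : ℂ) = (ε (A * B) : ℂ)) :
    ∃ R : IntermediateField K ℝ, FiniteDimensional K R ∧ IsGalois K R ∧
      (∀ g h : R ≃ₐ[K] R, g * h = h * g) ∧ (∀ A, ε A ∈ R) ∧
      ∀ g : R ≃ₐ[K] R, ∃ B, ∀ A, act g (ε A) = ε (A * B) := by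
  have hs : ∀ s : ℂ ≃ₐ[K] ℂ, ∃ B, ∀ A, s (ε A : ℂ) = (ε (A * B) : ℂ) := by
    intro s
    refine h s.toRingEquiv fun x => ?_
    exact s.commutes x
  have hP : AutC.Perm K ε := fun s A => by
    obtain ⟨B, hB⟩ := hs s
    exact ⟨A * B, hB A⟩
  have hfin := hP.finiteDimensional
  have hgal := hP.isGalois
  have htr : ∀ g : AutC.Fld K ε ≃ₐ[K] AutC.Fld K ε, ∃ B, ∀ A, act g (ε A) = ε (A * B) := by
    intro g
    obtain ⟨s, hs1⟩ := AutC.lift_real (AutC.Fld K ε) g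
    obtain ⟨B, hB⟩ := hs s
    refine ⟨B, fun A => ?_⟩
    have h1 := hs1 ⟨ε A, AutC.mem_Fld ε A⟩
    rw [act_of_mem g (AutC.mem_Fld ε A)]
    have h2 := hB A
    rw [h1] at h2
    exact Complex.ofReal_injective h2
  refine ⟨AutC.Fld K ε, hfin, hgal, ?_, AutC.mem_Fld ε, htr⟩
  intro g h
  obtain ⟨B, hB⟩ := htr g
  obtain ⟨B', hB'⟩ := htr h
  have hg : ∀ A, g ⟨ε A, AutC.mem_Fld ε A⟩ = ⟨ε (A * B), AutC.mem_Fld ε _⟩ := fun A => by
    apply Subtype.ext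
    rw [← act_of_mem g (AutC.mem_Fld ε A)]
    exact hB A
  have hh : ∀ A, h ⟨ε A, AutC.mem_Fld ε A⟩ = ⟨ε (A * B'), AutC.mem_Fld ε _⟩ := fun A => by
    apply Subtype.ext
    rw [← act_of_mem h (AutC.mem_Fld ε A)]
    exact hB' A
  have key : ((g * h : AutC.Fld K ε ≃ₐ[K] AutC.Fld K ε) : AutC.Fld K ε →ₐ[K] AutC.Fld K ε)
      = ((h * g : AutC.Fld K ε ≃ₐ[K] AutC.Fld K ε) : AutC.Fld K ε →ₐ[K] AutC.Fld K ε) := by
    refine IntermediateField.algHom_ext_of_eq_adjoin K (S := AutC.Fld K ε) (s := Set.range ε) rfl ?_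
    rintro _ ⟨A, rfl⟩
    show g (h ⟨ε A, _⟩) = h (g ⟨ε A, _⟩)
    rw [hg, hh, hg, hh, mul_right_comm]
  exact AlgEquiv.ext fun x => congrArg (fun f : AutC.Fld K ε →ₐ[K] AutC.Fld K ε => f x) key

/-- Converse: translations by a Galois group of a real normal extension give translations by the automorphisms of
`ℂ` over `K`. -/
theorem tr_of_field {K : Type*} [Field K] [Algebra K ℝ] {C : Type*} [Mul C] (ε : C → ℝ)
    (R : IntermediateField K ℝ) [Normal K R] (hmem : ∀ A, ε A ∈ R)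
    (htr : ∀ g : R ≃ₐ[K] R, ∃ B, ∀ A, act g (ε A) = ε (A * B))
    (s : ℂ ≃+* ℂ) (hs : ∀ x : K, s ((algebraMap K ℝ x : ℝ) : ℂ) = ((algebraMap K ℝ x : ℝ) : ℂ)) :
    ∃ B, ∀ A, s (ε A : ℂ) = (ε (A * B) : ℂ) := by
  obtain ⟨g, hg⟩ := AutC.restrict_real R (AlgEquiv.ofRingEquiv (f := s) hs)
  obtain ⟨B, hB⟩ := htr g
  refine ⟨B, fun A => ?_⟩
  have h1 := hg ⟨ε A, hmem A⟩
  rw [← hB A, act_of_mem g (hmem A)]
  exact h1

end Pool.Agent.STs
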