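import Pool.Agent.Lib.MP_1ef7cf_nt_s.Perm
import Pool.Agent.Lib.MP_1ef7cf_nt_s.FM57
import Pool.Agent.Lib.MP_1ef7cf_nt_s.Dw
import Pool.Agent.Lib.MP_1ef7cf_nt.Norm2
import Pool.Agent.Lib.MP_1ef7cf_nt.Defs

/-!
# The easy direction

`StarkTate` for all nonzero multiples of `n` gives compatible permutations (`PermC`): an automorphism `s` of `ℂ` over `K`
restricts to `g_m` on the ray class field `H_m`, and acts on the numbers `ε_m(A)` as the translation by `C_m = Art_m⁻¹ g_m`; the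
classes `C_m` are compatible with the projections by the compatibility of the Artin maps.
-/

set_option autoImplicit false

open NumberField IsDedekindDomain nonZeroDivisors IntermediateField

namespace Pool.Agent.STs

open Pool.Agent.ST
open Pool.Agent.STr

variable {K : Type*} [Field K] [NumberField K] [Algebra K ℝ] {σ₂ : K →+* ℝ} {n m m' : Ideal (𝓞 K)}

/-- the numbers `exp (-2 ζ'(0, A))` -/
lemma exp_eq_ev {A : RayClassGroup σ₂ m} {Z : ℂ → ℂ} (hZ : IsPartialZeta σ₂ m A Z) :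
    Complex.exp (-2 * deriv Z 0) = ((ev σ₂ m A : ℝ) : ℂ) := by
  rw [← zd_eq hZ]
  unfold ev Lz
  push_cast
  rfl

/-- the translation form in terms of partial zeta functions -/
theorem tr_iff {Z : RayClassGroup σ₂ m → ℂ → ℂ} (hZ : ∀ A, IsPartialZeta σ₂ m A (Z A)) :
    (∀ s : ℂ ≃+* ℂ, (∀ x : K, s ((algebraMap K ℝ x : ℝ) : ℂ) = ((algebraMap K ℝ x : ℝ) : ℂ)) →
      ∃ B : RayClassGroup σ₂ m, ∀ A, s (Complex.exp (-2 * deriv (Z A) 0)) =
        Complex.exp (-2 * deriv (Z (A * B)) 0)) ↔ Tr σ₂ m := by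
  have h : ∀ A, Complex.exp (-2 * deriv (Z A) 0) = ((ev σ₂ m A : ℝ) : ℂ) := fun A => exp_eq_ev (hZ A)
  simp only [h]
  rfl

/-- the data of `StarkTate` -/
theorem starkTate_data (h : StarkTate σ₂ m) :
    ∃ (H : IntermediateField K ℝ) (Art : RayClassGroup σ₂ m ≃* (H ≃ₐ[K] H)), IsRayClassField σ₂ m H Art ∧
      (∀ A, ev σ₂ m A ∈ H) ∧ ∀ A B, act (Art B) (ev σ₂ m A) = ev σ₂ m (A * B) := by
  obtain ⟨H, Art, Z, ε, h1, h2, h3, h4, -, -⟩ := h
  have hval : ∀ A, (((ε A : 𝓞 H) : H) : ℝ) = ev σ₂ m A := by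
    intro A
    have h5 := h3 A
    rw [exp_eq_ev (h2 A)] at h5
    exact_mod_cast h5
  refine ⟨H, Art, h1, fun A => ?_, fun A B => ?_⟩
  · rw [← hval]
    exact ((ε A : 𝓞 H) : H).2
  · rw [← hval, ← hval, act_coe, h4]

/-- **(1) ⇒ (2)** at one level -/
theorem tr_of_starkTate (h : StarkTate σ₂ m) : Tr σ₂ m := by
  obtain ⟨H, Art, h1, h2, h3⟩ := starkTate_data h
  have := h1.galois
  intro s hs
  exact tr_of_field (ev σ₂ m) H h2 (fun g => ⟨Art.symm g, fun A => by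
    have := h3 A (Art.symm g)
    rwa [MulEquiv.apply_symm_apply] at this⟩) s hs

/-- the classes of an automorphism at two levels -/
lemma class_pr (hle : m' ≤ m) (hm' : m' ≠ ⊥) {H H' : IntermediateField K ℝ}
    {Art : RayClassGroup σ₂ m ≃* (H ≃ₐ[K] H)} {Art' : RayClassGroup σ₂ m' ≃* (H' ≃ₐ[K] H')}
    (h1 : IsRayClassField σ₂ m H Art) (h1' : IsRayClassField σ₂ m' H' Art') (s : ℂ ≃+* ℂ)
    {C : RayClassGroup σ₂ m} {C' : RayClassGroup σ₂ m'}
    (h4 : ∀ x ∈ H, s ((x : ℝ) : ℂ) = ((act (Art C) x : ℝ) : ℂ))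
    (h4' : ∀ x ∈ H', s ((x : ℝ) : ℂ) = ((act (Art' C') x : ℝ) : ℂ)) : pr σ₂ hle C' = C := by
  have := h1.galois
  have hH : H ≤ H' := IsRCF.le hle hm' Set.finite_empty Set.finite_empty h1'.isRCF h1.isRCF
  apply Art.injective
  apply act_ext
  intro x hx
  rw [← IsRCF.res_art hle hm' Set.finite_empty Set.finite_empty h1'.isRCF h1.isRCF hH C', act_res _ _ hx]
  apply Complex.ofReal_injective
  rw [← h4 x hx, ← h4' x (hH hx)]

/-- **(1) ⇒ (3)** -/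
theorem permC_of_starkTate (h : ∀ m : Ideal (𝓞 K), m ≠ ⊥ → n ∣ m → StarkTate σ₂ m) : PermC σ₂ n := by
  classical
  intro s hs
  let s' : ℂ ≃ₐ[K] ℂ := AlgEquiv.ofRingEquiv (f := s) hs
  -- the class of `s`
  have key : ∀ m : Ideal (𝓞 K), m ≠ ⊥ → n ∣ m → ∃ (H : IntermediateField K ℝ)
      (Art : RayClassGroup σ₂ m ≃* (H ≃ₐ[K] H)) (C : RayClassGroup σ₂ m), IsRayClassField σ₂ m H Art ∧
      (∀ A, ev σ₂ m A ∈ H) ∧ (∀ A B, act (Art B) (ev σ₂ m A) = ev σ₂ m (A * B)) ∧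
      ∀ x ∈ H, s (x : ℂ) = ((act (Art C) x : ℝ) : ℂ) := by
    intro m hm hnm
    obtain ⟨H, Art, h1, h2, h3⟩ := starkTate_data (h m hm hnm)
    have := h1.galois
    obtain ⟨g, hg⟩ := AutC.restrict_real H s'
    refine ⟨H, Art, Art.symm g, h1, h2, h3, fun x hx => ?_⟩
    rw [MulEquiv.apply_symm_apply, act_of_mem g hx]
    exact hg ⟨x, hx⟩
  choose H Art C h1 h2 h3 h4 using key
  have hp : ∀ (m : Ideal (𝓞 K)) (hm : m ≠ ⊥) (hnm : n ∣ m) (A : RayClassGroup σ₂ m),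
      (if hm : m ≠ ⊥ ∧ n ∣ m then A * C m hm.1 hm.2 else A) = A * C m hm hnm :=
    fun m hm hnm A => dif_pos (⟨hm, hnm⟩ : m ≠ ⊥ ∧ n ∣ m)
  refine ⟨fun m A => if hm : m ≠ ⊥ ∧ n ∣ m then A * C m hm.1 hm.2 else A, ?_, ?_, ?_⟩
  · intro m hm hnm
    simp only [hp m hm hnm]
    exact (Equiv.mulRight (C m hm hnm)).bijective
  · intro m hm hnm A
    simp only [hp m hm hnm]
    rw [← h3 m hm hnm A (C m hm hnm)]
    exact h4 m hm hnm _ (h2 m hm hnm A)
  · intro m m' hle hm' hnm A'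
    have hm : m ≠ ⊥ := by
      rintro rfl
      exact hm' (le_bot_iff.1 hle)
    have hnm' : n ∣ m' := hnm.trans (Ideal.dvd_iff_le.2 hle)
    simp only [hp m hm hnm, hp m' hm' hnm']
    rw [map_mul, class_pr hle hm' (h1 m hm hnm) (h1 m' hm' hnm') s (h4 m hm hnm) (h4 m' hm' hnm')]

end Pool.Agent.STs
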