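import Pool.Agent.Lib.MP_1ef7cf_nt_s.Hx2

/-!
# Compatible permutations are translations

Let `s` be an automorphism of `ℂ`, and `p m` permutations of the ray class groups `C_m` (`m` the nonzero multiples of `n`),
compatible with the projections, such that `s (ε_m A) = ε_m (p m A)`. CLAIM: `s (ε_m (A R)) = ε_m (p m A * R)` for all `A`, `R`.
PROOF. `E m₁ A = exp (UU A)` for `m₁ ≤ m` is the product of the numbers `ε_{m₁}` over the classes above `A`; as `p m₁` maps this fibre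
onto the fibre over `p m A`, `s (E m₁ A) = E m₁ (p m A)`. By `V3_step` `E (m₁ q) A = E m₁ A / E m₁ (A [q]⁻¹)`. By induction on the number of
elements of a finite set `F` of primes which do not divide `m`, with `R` the product of the inverses of their classes:
`s (E m₁ (A R)) = E m₁ (p m A * R)` for all `m₁ ≤ m` not divisible by the elements of `F`. Every class is such a product `R`
(`exists_primes`).
-/

set_option autoImplicit false

open NumberField IsDedekindDomain nonZeroDivisors IntermediateField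

namespace Pool.Agent.STs

open Pool.Agent.ST
open Pool.Agent.STr
open Pool.Agent.STc (IsInt rd IsUn)

variable {K : Type*} [Field K] [NumberField K] [Algebra K ℝ] {σ₂ : K →+* ℝ} {n m m' m'' : Ideal (𝓞 K)}

/-- every automorphism of `ℂ` over `K` acts on the numbers `ε_m(A)` by a translation -/
def Tr (σ₂ : K →+* ℝ) (m : Ideal (𝓞 K)) : Prop :=
  ∀ s : ℂ ≃+* ℂ, (∀ x : K, s ((algebraMap K ℝ x : ℝ) : ℂ) = ((algebraMap K ℝ x : ℝ) : ℂ)) →
    ∃ B : RayClassGroup σ₂ m, ∀ A, s ((ev σ₂ m A : ℝ) : ℂ) = ((ev σ₂ m (A * B) : ℝ) : ℂ)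

open Classical in
/-- the inverse of the class of a prime, `1` if the prime divides `m` -/
noncomputable def cli (σ₂ : K →+* ℝ) (m : Ideal (𝓞 K)) (q : PrI K) : RayClassGroup σ₂ m :=
  if h : ¬ q.asIdeal ∣ m then (cls σ₂ m (prJ m q h))⁻¹ else 1

/-- the classes of the primes outside of a finite set generate -/
theorem gen_cls {H : IntermediateField K ℝ} {Art : RayClassGroup σ₂ m ≃* (H ≃ₐ[K] H)}
    (hr : IsRayClassField σ₂ m H Art) (hm : m ≠ ⊥) (G : Subgroup (RayClassGroup σ₂ m)) {B : Set (PrI K)} (hB : B.Finite)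
    (h : ∀ (q : PrI K) (hq : ¬ q.asIdeal ∣ m), q ∉ B → cls σ₂ m (prJ m q hq) ∈ G) : G = ⊤ := by
  have h' := hr.isRCF
  have := hr.finite
  have := hr.galois
  have := numberField_of_fd H
  have hT := frob_gen (K := K) (L := H) h'.comm (G.map (Art : RayClassGroup σ₂ m →* (H ≃ₐ[K] H)))
    (B ∪ {v : HeightOneSpectrum (𝓞 K) | v.asIdeal ∣ m}) (hB.union (finite_dvd hm)) (by
      intro P hP hun σ hσ
      have hv : ¬ (und K P).asIdeal ∣ m := fun hd => hP (Or.inr hd)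
      have f1 := h'.frobP P (fun hb => by simp at hb) (prJ m (und K P) hv) (by rw [coe_prJ])
      have g1 := isFrob_unique hσ f1.2
      rw [g1]
      exact ⟨_, h _ hv (fun hb => hP (Or.inl hb)), rfl⟩)
  rw [eq_top_iff]
  intro C _
  have h1 : Art C ∈ G.map (Art : RayClassGroup σ₂ m →* (H ≃ₐ[K] H)) := by rw [hT]; exact Subgroup.mem_top _
  obtain ⟨D, hD, hDC⟩ := h1
  have h2 : D = C := Art.injective hDC
  rwa [← h2]

/-- every class is a product of inverses of classes of distinct primes outside of a given finite set -/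
theorem exists_primes {H : IntermediateField K ℝ} {Art : RayClassGroup σ₂ m ≃* (H ≃ₐ[K] H)}
    (hr : IsRayClassField σ₂ m H Art) (hm : m ≠ ⊥) (R : RayClassGroup σ₂ m) (F₀ : Set (PrI K)) (hF₀ : F₀.Finite) :
    ∃ F : Finset (PrI K), (∀ q ∈ F, q ∉ F₀ ∧ ¬ q.asIdeal ∣ m) ∧ R = ∏ q ∈ F, cli σ₂ m q := by
  classical
  have hfin : Finite (RayClassGroup σ₂ m) := by
    have := hr.finite
    exact Finite.of_equiv _ Art.symm.toEquiv
  let M : Submonoid (RayClassGroup σ₂ m) :=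
    { carrier := {R | ∀ F₀ : Set (PrI K), F₀.Finite →
        ∃ F : Finset (PrI K), (∀ q ∈ F, q ∉ F₀ ∧ ¬ q.asIdeal ∣ m) ∧ R = ∏ q ∈ F, cli σ₂ m q}
      one_mem' := fun F₀ _ => ⟨∅, by simp, by simp⟩
      mul_mem' := by
        intro R R' hR hR' F₀ hF₀
        obtain ⟨F, hF, e⟩ := hR F₀ hF₀
        obtain ⟨F', hF', e'⟩ := hR' (F₀ ∪ (F : Set (PrI K))) (hF₀.union F.finite_toSet)
        have hd : Disjoint F F' := by
          rw [Finset.disjoint_left]
          intro q hq hq'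
          exact (hF' q hq').1 (Or.inr hq)
        refine ⟨F ∪ F', ?_, ?_⟩
        · intro q hq
          rcases Finset.mem_union.1 hq with h | h
          · exact hF q h
          · exact ⟨fun hb => (hF' q h).1 (Or.inl hb), (hF' q h).2⟩
        · rw [Finset.prod_union hd, ← e, ← e'] }
  let G : Subgroup (RayClassGroup σ₂ m) :=
    { M with
      inv_mem' := by
        intro x hx
        have h1 : x⁻¹ = x ^ (Nat.card (RayClassGroup σ₂ m) - 1) := by
          have h2 : x ^ (Nat.card (RayClassGroup σ₂ m) - 1) * x = 1 := by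
            rw [← pow_succ, Nat.sub_add_cancel Nat.card_pos, pow_card_eq_one']
          exact (eq_inv_of_mul_eq_one_left h2).symm
        rw [h1]
        exact M.pow_mem hx _ }
  have hG : G = ⊤ := by
    refine gen_cls hr hm G (B := ⋃ C ∈ {C : RayClassGroup σ₂ m | C ∉ G},
      {q : PrI K | ∃ h : ¬ q.asIdeal ∣ m, cls σ₂ m (prJ m q h) = C}) ?_ ?_
    · refine (Set.toFinite {C : RayClassGroup σ₂ m | C ∉ G}).biUnion fun C hC => ?_
      by_contra hinf
      apply hC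
      rw [← inv_inv C]
      refine G.inv_mem ?_
      change C⁻¹ ∈ M
      intro F₀ hF₀
      obtain ⟨q, ⟨hq, hqC⟩, hqF⟩ := Set.Infinite.exists_notMem_finite hinf hF₀
      refine ⟨{q}, ?_, ?_⟩
      · intro q' hq'
        rw [Finset.mem_singleton] at hq'
        subst hq'
        exact ⟨hqF, hq⟩
      · rw [Finset.prod_singleton, cli, dif_pos hq, hqC]
    · intro q hq hqB
      by_contra hcon
      exact hqB (Set.mem_biUnion (show cls σ₂ m (prJ m q hq) ∈ {C : RayClassGroup σ₂ m | C ∉ G} from hcon) ⟨hq, rfl⟩)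
  have h1 : R ∈ G := by rw [hG]; exact Subgroup.mem_top _
  exact h1 F₀ hF₀

section perm

variable (s : ℂ ≃+* ℂ) (p : ∀ m : Ideal (𝓞 K), RayClassGroup σ₂ m → RayClassGroup σ₂ m)

/-- the product over the fibre of the numbers `ε` -/
lemma Perm_exp_UU [Fintype (RayClassGroup σ₂ m')] [DecidableEq (RayClassGroup σ₂ m)] (hle : m' ≤ m)
    (A : RayClassGroup σ₂ m) :
    Real.exp (UU hle A) = ∏ A' ∈ Finset.univ.filter (fun A' : RayClassGroup σ₂ m' => pr σ₂ hle A' = A),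
      ev σ₂ m' A' := by
  have h : UU hle A = ∑ A' ∈ Finset.univ.filter (fun A' : RayClassGroup σ₂ m' => pr σ₂ hle A' = A),
      Lz σ₂ m' A' := by
    have hs : {A' : RayClassGroup σ₂ m' | pr σ₂ hle A' = A} =
        ((Finset.univ.filter (fun A' : RayClassGroup σ₂ m' => pr σ₂ hle A' = A) : Finset (RayClassGroup σ₂ m')) :
          Set (RayClassGroup σ₂ m')) := by
      ext A'
      simp
    unfold UU
    rw [hs, finsum_mem_coe_finset]
  rw [h, Real.exp_sum]
  rfl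

theorem perm_UU (hy : Hx σ₂ n) (hm : m ≠ ⊥) (hnm : n ∣ m) (hm' : m' ≠ ⊥) (hle : m' ≤ m)
    (hb : Function.Injective (p m)) (hb' : Function.Bijective (p m'))
    (hp' : ∀ A, s ((ev σ₂ m' A : ℝ) : ℂ) = ((ev σ₂ m' (p m' A) : ℝ) : ℂ))
    (hc : ∀ A', pr σ₂ hle (p m' A') = p m (pr σ₂ hle A')) (A : RayClassGroup σ₂ m) :
    s ((Real.exp (UU hle A) : ℝ) : ℂ) = ((Real.exp (UU hle (p m A)) : ℝ) : ℂ) := by
  classical
  have f1 := hy.finite_cl hm' (hnm.trans (Ideal.dvd_iff_le.2 hle))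
  have := Fintype.ofFinite (RayClassGroup σ₂ m')
  rw [Perm_exp_UU hle, Perm_exp_UU hle, Complex.ofReal_prod, Complex.ofReal_prod, map_prod]
  refine Finset.prod_bij (fun A' _ => p m' A') ?_ ?_ ?_ ?_
  · intro A' hA'
    rw [Finset.mem_filter] at hA' ⊢
    exact ⟨Finset.mem_univ _, by rw [hc, hA'.2]⟩
  · intro a _ b _ hab
    exact hb'.1 hab
  · intro B hB
    obtain ⟨A', rfl⟩ := hb'.2 B
    rw [Finset.mem_filter, hc] at hB
    exact ⟨A', Finset.mem_filter.2 ⟨Finset.mem_univ _, hb hB.2⟩, rfl⟩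
  · intro A' _
    exact hp' A'

theorem perm_trans (hy : Hx σ₂ n)
    (hb : ∀ m : Ideal (𝓞 K), m ≠ ⊥ → n ∣ m → Function.Bijective (p m))
    (hp : ∀ m : Ideal (𝓞 K), m ≠ ⊥ → n ∣ m → ∀ A, s ((ev σ₂ m A : ℝ) : ℂ) = ((ev σ₂ m (p m A) : ℝ) : ℂ))
    (hc : ∀ (m m' : Ideal (𝓞 K)) (h : m' ≤ m), m' ≠ ⊥ → n ∣ m → ∀ A', pr σ₂ h (p m' A') = p m (pr σ₂ h A'))
    (hm : m ≠ ⊥) (hnm : n ∣ m) (A R : RayClassGroup σ₂ m) :
    s ((ev σ₂ m (A * R) : ℝ) : ℂ) = ((ev σ₂ m (p m A * R) : ℝ) : ℂ) := by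
  classical
  obtain ⟨H, Art, hr⟩ := hy.rcf m hm hnm
  have key : ∀ F : Finset (PrI K), (∀ q ∈ F, ¬ q.asIdeal ∣ m) →
      ∀ (m₁ : Ideal (𝓞 K)) (h1 : m₁ ≤ m), m₁ ≠ ⊥ → (∀ q ∈ F, ¬ q.asIdeal ∣ m₁) → ∀ A : RayClassGroup σ₂ m,
      s ((Real.exp (UU h1 (A * ∏ q ∈ F, cli σ₂ m q)) : ℝ) : ℂ) =
        ((Real.exp (UU h1 (p m A * ∏ q ∈ F, cli σ₂ m q)) : ℝ) : ℂ) := by
    intro F
    induction F using Finset.induction_on with
    | empty =>
      intro _ m₁ h1 hm₁ _ A
      rw [Finset.prod_empty, mul_one, mul_one]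
      have hnm₁ : n ∣ m₁ := hnm.trans (Ideal.dvd_iff_le.2 h1)
      exact perm_UU s p hy hm hnm hm₁ h1 (hb m hm hnm).1 (hb m₁ hm₁ hnm₁) (hp m₁ hm₁ hnm₁)
        (hc m m₁ h1 hm₁ hnm) A
    | insert q F hqF ih =>
      intro hF m₁ h1 hm₁ hF₁ A
      have hqm : ¬ q.asIdeal ∣ m := hF q (Finset.mem_insert_self _ _)
      have hqm₁ : ¬ q.asIdeal ∣ m₁ := hF₁ q (Finset.mem_insert_self _ _)
      have ih' := ih fun q' hq' => hF q' (Finset.mem_insert_of_mem hq')
      have hle : m₁ * q.asIdeal ≤ m₁ := Ideal.mul_le_left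
      have i1 := ih' m₁ h1 hm₁ (fun q' hq' => hF₁ q' (Finset.mem_insert_of_mem hq')) A
      have i2 := ih' (m₁ * q.asIdeal) (hle.trans h1) (mul_ne_bot' hm₁ q.ne_bot) (by
        intro q' hq' hd
        rcases q'.prime.dvd_or_dvd hd with h | h
        · exact hF₁ q' (Finset.mem_insert_of_mem hq') h
        · have h3 : q.asIdeal ≤ q'.asIdeal := Ideal.le_of_dvd h
          have h4 : q' = q := (HeightOneSpectrum.ext (q.isMaximal.eq_of_le q'.isPrime.ne_top h3)).symm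
          rw [h4] at hq'
          exact hqF hq') A
      have hstep : ∀ X : RayClassGroup σ₂ m, Real.exp (UU h1 (X * cli σ₂ m q)) =
          Real.exp (UU h1 X) / Real.exp (UU (hle.trans h1) X) := by
        intro X
        rw [← Real.exp_sub]
        congr 1
        rw [V3_step hy hm hnm hm₁ h1 hqm₁ hqm hle X, cli, dif_pos hqm]
        ring
      rw [Finset.prod_insert hqF]
      have e1 : ∀ X : RayClassGroup σ₂ m, X * (cli σ₂ m q * ∏ q ∈ F, cli σ₂ m q) =
          X * (∏ q ∈ F, cli σ₂ m q) * cli σ₂ m q := fun X => by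
        rw [mul_comm (cli σ₂ m q), mul_assoc]
      rw [e1, e1, hstep, hstep, Complex.ofReal_div, Complex.ofReal_div, map_div₀, i1, i2]
  obtain ⟨F, hF, rfl⟩ := exists_primes hr hm R ∅ Set.finite_empty
  have h1 := key F (fun q hq => (hF q hq).2) m le_rfl hm (fun q hq => (hF q hq).2) A
  rw [UU_refl, UU_refl] at h1
  exact h1

end perm

/-- compatible permutations: for every automorphism `s` of `ℂ` over `K` there are permutations of the ray class groups modulo
the nonzero multiples of `n`, compatible with the projections, through which `s` acts on the numbers `ε_m(A)` -/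
def PermC (σ₂ : K →+* ℝ) (n : Ideal (𝓞 K)) : Prop :=
  ∀ s : ℂ ≃+* ℂ, (∀ x : K, s ((algebraMap K ℝ x : ℝ) : ℂ) = ((algebraMap K ℝ x : ℝ) : ℂ)) →
    ∃ p : ∀ m : Ideal (𝓞 K), RayClassGroup σ₂ m → RayClassGroup σ₂ m,
      (∀ m : Ideal (𝓞 K), m ≠ ⊥ → n ∣ m → Function.Bijective (p m)) ∧
      (∀ m : Ideal (𝓞 K), m ≠ ⊥ → n ∣ m → ∀ A, s ((ev σ₂ m A : ℝ) : ℂ) = ((ev σ₂ m (p m A) : ℝ) : ℂ)) ∧
      ∀ (m m' : Ideal (𝓞 K)) (h : m' ≤ m), m' ≠ ⊥ → n ∣ m → ∀ A', pr σ₂ h (p m' A') = p m (pr σ₂ h A')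

/-- **(3) ⇒ (2).** -/
theorem PermC.tr (hy : Hx σ₂ n) (h : PermC σ₂ n) (hm : m ≠ ⊥) (hnm : n ∣ m) : Tr σ₂ m := by
  intro s hs
  obtain ⟨p, h1, h2, h3⟩ := h s hs
  refine ⟨p m 1, fun A => ?_⟩
  have h4 := perm_trans s p hy h1 h2 h3 hm hnm 1 A
  rw [one_mul, mul_comm (p m 1) A] at h4
  exact h4

end Pool.Agent.STs
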