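import Pool.Agent.Lib.MP_1ef7cf_nt_s.Mg.G008
import Pool.Agent.Lib.MP_1ef7cf_nt_s.FM57
import Pool.Agent.Lib.MP_1ef7cf_nt_s.Perm
import Pool.Agent.Lib.MP_1ef7cf_nt_r.Mg.G031

/-!
# The translations imply Q1
-/

set_option autoImplicit false

open NumberField IsDedekindDomain nonZeroDivisors IntermediateField

namespace Pool.Agent.STs

open Pool.Agent.ST
open Pool.Agent.STr (Lz ev Lv Hy)

variable {K : Type*} [Field K] [NumberField K] [Algebra K ℝ] {σ₂ : K →+* ℝ} {n m : Ideal (𝓞 K)}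

/-- the field generated by the ray class field and the numbers `ε` -/
theorem Hw.of_tr (hx : Hx σ₂ n) (h : ∀ m : Ideal (𝓞 K), m ≠ ⊥ → n ∣ m → Tr σ₂ m) : Hw σ₂ n := by
  refine ⟨hx, fun m hm hnm => ?_⟩
  obtain ⟨H, Art, hr⟩ := hx.rcf m hm hnm
  have hf := hx.finite_cl hm hnm
  obtain ⟨R₀, h1, h2, h3, h4, h5⟩ := exists_field (K := K) (ev σ₂ m) (h m hm hnm)
  have hR₀ : AbR R₀ := ⟨h1, h2, h3⟩
  have hR : AbR (R₀ ⊔ H) := hR₀.sup (AbR.rcf hr)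
  refine ⟨R₀ ⊔ H, hR, ⟨⟨H, Art, hr, le_sup_right, fun A => le_sup_left (a := R₀) (h4 A), fun σ => ?_⟩⟩⟩
  obtain ⟨B, hB⟩ := h5 (res le_sup_left σ)
  exact ⟨B, (IsTr.res_iff le_sup_left h4).1 hB⟩

/-- the hypotheses of the theorem on the rationality -/
theorem Hw.toHy (hw : Hw σ₂ n) : Hy σ₂ n := by
  refine ⟨hw.h2, hw.hσ, hw.hn1, fun m hm hnm => ?_⟩
  obtain ⟨R, hR, ⟨L⟩⟩ := hw.lw m hm hnm
  have := hR.fd
  have := hR.gal
  have := L.rcf.galois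
  have hgoal := fun σ : R ≃ₐ[K] R => goal hw hm hnm hR L σ
  have hmem : ∀ A, ev σ₂ m A ∈ L.H := fun A => by
    refine mem_of_fixed L.le (L.mem A) fun γ hγ => ?_
    have h1 : L.a γ = 1 := L.a_eq fun x hx => by
      rw [hγ x hx, map_one, act_one_left hx]
    have h2 := hgoal γ A
    rw [h1, mul_one] at h2
    exact h2
  refine ⟨⟨L.H, L.Art, L.Art, L.rcf, hmem, fun A B => ?_⟩⟩
  obtain ⟨γ, rfl⟩ := L.a_surj hR B
  rw [L.act_a γ (hmem A)]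
  exact hgoal γ A

theorem main (hx : Hx σ₂ n) (h : ∀ m : Ideal (𝓞 K), m ≠ ⊥ → n ∣ m → Tr σ₂ m) :
    ∀ m : Ideal (𝓞 K), m ≠ ⊥ → n ∣ m → StarkTate σ₂ m :=
  Pool.Agent.STr.main (Hw.of_tr hx h).toHy

end Pool.Agent.STs
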