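import Pool.Agent.Lib.MP_1ef7cf_nt_r.V4

/-!
# The norm relations without a hypothesis on the Stark numbers

`Hx σ₂ n`: `K` is real quadratic, `σ₂` the second embedding, `n ≠ (1)`, and the ray class fields of all nonzero multiples of `n` exist.
The lemmas of `MP_1ef7cf_nt_r/V1.lean` and `V2.lean` which do not use the levels.
-/

set_option autoImplicit false

open NumberField IsDedekindDomain nonZeroDivisors IntermediateField

namespace Pool.Agent.STs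

open Pool.Agent.ST
open Pool.Agent.STr
open Pool.Agent.STc (IsInt rd IsUn)

variable {K : Type*} [Field K] [NumberField K] [Algebra K ℝ] {σ₂ : K →+* ℝ} {n m m' m'' : Ideal (𝓞 K)}

/-- `K` is real quadratic, and the ray class fields exist -/
structure Hx (σ₂ : K →+* ℝ) (n : Ideal (𝓞 K)) : Prop where
  h2 : Module.finrank ℚ K = 2
  hσ : σ₂ ≠ sg1 K
  hn1 : n ≠ ⊤
  rcf : ∀ m : Ideal (𝓞 K), m ≠ ⊥ → n ∣ m → ∃ (H : IntermediateField K ℝ)
    (Art : RayClassGroup σ₂ m ≃* (H ≃ₐ[K] H)), IsRayClassField σ₂ m H Art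

lemma Hx.finite_cl (hy : Hx σ₂ n) (hm : m ≠ ⊥) (hnm : n ∣ m) : Finite (RayClassGroup σ₂ m) := by
  obtain ⟨H, Art, h⟩ := hy.rcf m hm hnm
  have := h.finite
  exact Finite.of_equiv _ Art.symm.toEquiv

lemma Hx.ne_top (hy : Hx σ₂ n) (hnm : n ∣ m) : m ≠ ⊤ := by
  intro h
  have h1 := Ideal.dvd_iff_le.1 hnm
  rw [h] at h1
  exact hy.hn1 (top_le_iff.1 h1)

lemma Hx.pr_surj (hy : Hx σ₂ n) (hm : m ≠ ⊥) (hnm : n ∣ m) (hm' : m' ≠ ⊥) (hle : m' ≤ m) :
    Function.Surjective (pr σ₂ hle) := by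
  obtain ⟨H, Art, h⟩ := hy.rcf m hm hnm
  obtain ⟨H', Art', h'⟩ := hy.rcf m' hm' (hnm.trans (Ideal.dvd_iff_le.2 hle))
  have := h.finite
  have := h.galois
  have := h'.finite
  have := h'.galois
  have hHH : H ≤ H' := IsRCF.le hle hm' Set.finite_empty Set.finite_empty h'.isRCF h.isRCF
  intro B
  obtain ⟨γ, hγ⟩ := res_surjective hHH (Art B)
  refine ⟨Art'.symm γ, Art.injective ?_⟩
  rw [← IsRCF.res_art hle hm' Set.finite_empty Set.finite_empty h'.isRCF h.isRCF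
    hHH, Art'.apply_symm_apply, hγ]

lemma Hx.Lz_c (hy : Hx σ₂ n) (hm : m ≠ ⊥) (hnm : n ∣ m) {c : RayClassGroup σ₂ m} (hc : IsC σ₂ m c)
    (A : RayClassGroup σ₂ m) : Lz σ₂ m A + Lz σ₂ m (A * c) = 0 := by
  have h := zd_mul_c hy.h2 hy.hσ hm (hy.ne_top hnm) hc A
  rw [Lz, Lz, ← mul_add, h, mul_zero]

/-- every `Hy` gives an `Hx` -/
lemma Hy.toHx (hy : Hy σ₂ n) : Hx σ₂ n :=
  ⟨hy.h2, hy.hσ, hy.hn1, fun m hm hnm => by
    obtain ⟨L⟩ := hy.lv m hm hnm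
    exact ⟨L.H, L.Art, L.rcf⟩⟩

omit [Algebra K ℝ] in
private lemma V2_dvd {n m m' : Ideal (𝓞 K)} (h : m' ≤ m) (hnm : n ∣ m) : n ∣ m' :=
  hnm.trans (Ideal.dvd_iff_le.2 h)

omit [Algebra K ℝ] in
open Classical in
private lemma V2_UU_eq (hle : m' ≤ m) [Fintype (RayClassGroup σ₂ m')] (A : RayClassGroup σ₂ m) :
    UU hle A = ∑ A' ∈ Finset.univ.filter (fun A' => pr σ₂ hle A' = A), Lz σ₂ m' A' := by
  have h : {A' : RayClassGroup σ₂ m' | pr σ₂ hle A' = A} =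
      ((Finset.univ.filter (fun A' => pr σ₂ hle A' = A) : Finset (RayClassGroup σ₂ m')) :
        Set (RayClassGroup σ₂ m')) := by
    ext A'
    simp
  unfold UU
  rw [h, finsum_mem_coe_finset]

theorem UU_same (hy : Hx σ₂ n) (hm : m ≠ ⊥) (hnm : n ∣ m) (hm' : m' ≠ ⊥) (hle : m' ≤ m)
    (hsame : ∀ q : PrI K, q.asIdeal ∣ m' → q.asIdeal ∣ m) (A : RayClassGroup σ₂ m) :
    UU hle A = Lz σ₂ m A := by
  classical
  have hf : Finite (RayClassGroup σ₂ m') := hy.finite_cl hm' (V2_dvd hle hnm)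
  let _ : Fintype (RayClassGroup σ₂ m') := Fintype.ofFinite _
  have hm1 : m ≠ ⊤ := hy.ne_top hnm
  have hprime : ∀ J : (FI K)ˣ, J ∈ primeTo m → J ∈ primeTo m' :=
    fun J hJ v hv => hJ v (hsame v hv)
  have hcop : ∀ I : Ideal (𝓞 K), IsCoprime I m → IsCoprime I m' := by
    intro I hI
    have hI0 : I ≠ ⊥ := ne_bot_of_coprime_ne hI hm1
    exact coprime_of_mem_primeTo (J := uI I hI0) (coe_uI I hI0)
      (hprime _ (coe_mem_primeTo (coe_uI I hI0) hI))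
  have hS : ∀ A', A' ∈ Finset.univ.filter (fun A' => pr σ₂ hle A' = A) ↔ pr σ₂ hle A' = A := by
    simp
  rw [V2_UU_eq]
  simp only [Lz]
  rw [← Finset.mul_sum, zd_relation_same hy.h2 hy.hσ hle hm' hm hm1 hcop hS]

theorem UU_prime (hy : Hx σ₂ n) (hm : m ≠ ⊥) (hnm : n ∣ m) {q : PrI K} (hq : ¬ q.asIdeal ∣ m)
    (hle : m * q.asIdeal ≤ m) (A : RayClassGroup σ₂ m) :
    UU hle A = Lz σ₂ m A - Lz σ₂ m (A * (cls σ₂ m (prJ m q hq))⁻¹) := by
  classical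
  have hm' : m * q.asIdeal ≠ ⊥ := mul_ne_bot' hm q.ne_bot
  have hf : Finite (RayClassGroup σ₂ (m * q.asIdeal)) := hy.finite_cl hm' (V2_dvd hle hnm)
  let _ : Fintype (RayClassGroup σ₂ (m * q.asIdeal)) := Fintype.ofFinite _
  have hm1 : m ≠ ⊤ := hy.ne_top hnm
  have hS : ∀ A', A' ∈ Finset.univ.filter (fun A' => pr σ₂ hle A' = A) ↔ pr σ₂ hle A' = A := by
    simp
  rw [V2_UU_eq]
  simp only [Lz]
  rw [← Finset.mul_sum, zd_relation_prime hy.h2 hy.hσ hle rfl hm hm1 hS (coe_prJ m q hq)]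
  ring

theorem UU_trans (hy : Hx σ₂ n) (hm : m ≠ ⊥) (hnm : n ∣ m) (hm'' : m'' ≠ ⊥) (h1 : m'' ≤ m') (h2 : m' ≤ m)
    (A : RayClassGroup σ₂ m) :
    UU (h1.trans h2) A = ∑ᶠ A' ∈ {A' : RayClassGroup σ₂ m' | pr σ₂ h2 A' = A}, UU h1 A' := by
  classical
  have hm' : m' ≠ ⊥ := by
    rintro rfl
    exact hm'' (le_bot_iff.1 h1)
  have hnm' : n ∣ m' := V2_dvd h2 hnm
  have hf' : Finite (RayClassGroup σ₂ m') := hy.finite_cl hm' hnm'
  have hf'' : Finite (RayClassGroup σ₂ m'') := hy.finite_cl hm'' (V2_dvd h1 hnm')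
  let _ : Fintype (RayClassGroup σ₂ m') := Fintype.ofFinite _
  let _ : Fintype (RayClassGroup σ₂ m'') := Fintype.ofFinite _
  have h : {A' : RayClassGroup σ₂ m' | pr σ₂ h2 A' = A} =
      ((Finset.univ.filter (fun A' => pr σ₂ h2 A' = A) : Finset (RayClassGroup σ₂ m')) :
        Set (RayClassGroup σ₂ m')) := by
    ext A'
    simp
  rw [V2_UU_eq, h, finsum_mem_coe_finset]
  rw [← Finset.sum_fiberwise_of_maps_to (s := Finset.univ.filter (fun A'' => pr σ₂ (h1.trans h2) A'' = A))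
    (t := Finset.univ.filter (fun A' => pr σ₂ h2 A' = A)) (g := fun A'' => pr σ₂ h1 A'')]
  · refine Finset.sum_congr rfl fun A' hA' => ?_
    rw [Finset.mem_filter] at hA'
    rw [V2_UU_eq]
    refine Finset.sum_congr ?_ fun _ _ => rfl
    ext A''
    simp only [Finset.mem_filter, Finset.mem_univ, true_and]
    constructor
    · rintro ⟨-, h4⟩
      exact h4
    · intro h4
      refine ⟨?_, h4⟩
      rw [← pr_pr h1 h2, h4]
      exact hA'.2
  · intro A'' hA''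
    simp only [Finset.mem_filter, Finset.mem_univ, true_and] at hA'' ⊢
    rw [pr_pr h1 h2]
    exact hA''

end Pool.Agent.STs
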