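import Pool.Agent.Lib.MP_1ef7cf_nt_s.Hx

/-!
# The norm relation for several primes and the sets `X`, without a hypothesis on the Stark numbers

The lemmas of `MP_1ef7cf_nt_r/V3.lean` and `V4.lean` for `Hx`.
-/

set_option autoImplicit false

open NumberField IsDedekindDomain nonZeroDivisors IntermediateField

namespace Pool.Agent.STs

open Pool.Agent.ST
open Pool.Agent.STr
open Pool.Agent.STc (IsInt rd IsUn)

variable {K : Type*} [Field K] [NumberField K] [Algebra K ℝ] {σ₂ : K →+* ℝ} {n m m' m'' : Ideal (𝓞 K)}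

lemma V3_step (hy : Hx σ₂ n) (hm : m ≠ ⊥) (hnm : n ∣ m) {m₁ : Ideal (𝓞 K)} (hm₁ : m₁ ≠ ⊥) (h2 : m₁ ≤ m)
    {q : PrI K} (hq : ¬ q.asIdeal ∣ m₁) (hqm : ¬ q.asIdeal ∣ m) (h1 : m₁ * q.asIdeal ≤ m₁) (A : RayClassGroup σ₂ m) :
    UU (h1.trans h2) A = UU h2 A - UU h2 (A * (cls σ₂ m (prJ m q hqm))⁻¹) := by
  have hnm₁ : n ∣ m₁ := hnm.trans (Ideal.dvd_iff_le.2 h2)
  have hm' : m₁ * q.asIdeal ≠ ⊥ := mul_ne_bot' hm₁ q.ne_bot
  have f1 := hy.finite_cl hm₁ hnm₁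
  have hpr : pr σ₂ h2 (cls σ₂ m₁ (prJ m₁ q hq)) = cls σ₂ m (prJ m q hqm) := by
    rw [pr_cls]
    congr 1
  rw [UU_trans hy hm hnm hm' h1 h2]
  simp_rw [UU_prime hy hm₁ hnm₁ hq h1]
  rw [finsum_mem_sub_distrib _ _ (Set.toFinite _)]
  unfold UU
  congr 1
  refine finsum_mem_eq_of_bijOn (fun A' => A' * (cls σ₂ m₁ (prJ m₁ q hq))⁻¹) ⟨?_, ?_, ?_⟩ fun A' _ => rfl
  · intro A' hA'
    rw [Set.mem_ofPred_eq] at hA' ⊢
    rw [map_mul, map_inv, hA', hpr]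
  · intro a _ b _ hab
    exact mul_right_cancel hab
  · intro B hB
    refine ⟨B * cls σ₂ m₁ (prJ m₁ q hq), ?_, by simp⟩
    rw [Set.mem_ofPred_eq] at hB ⊢
    rw [map_mul, hB, hpr, inv_mul_cancel_right]

theorem UU_all (hy : Hx σ₂ n) (hm : m ≠ ⊥) (hnm : n ∣ m) (hm' : m' ≠ ⊥) (hle : m' ≤ m) :
    ∃ e : RayClassGroup σ₂ m → ℤ, (∀ A, UU hle A = ∑ᶠ g, (e g : ℝ) * Lz σ₂ m (A * g)) ∧
      ∀ χ : RayClassGroup σ₂ m →* ℂˣ, ∑ᶠ g, (e g : ℂ) * ((χ g : ℂˣ) : ℂ) = EE χ m' := by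
  classical
  have f0 := hy.finite_cl hm hnm
  have := Fintype.ofFinite (RayClassGroup σ₂ m)
  obtain ⟨J, hJ⟩ := Ideal.dvd_iff_le.2 hle
  have hJ0 : J ≠ ⊥ := by
    rintro rfl
    exact hm' (by rw [hJ, Ideal.mul_bot])
  suffices H : ∀ J : Ideal (𝓞 K), J ≠ ⊥ → ∀ m' : Ideal (𝓞 K), m' = m * J → ∀ hle : m' ≤ m,
      ∃ e : RayClassGroup σ₂ m → ℤ, (∀ A, UU hle A = ∑ᶠ g, (e g : ℝ) * Lz σ₂ m (A * g)) ∧
      ∀ χ : RayClassGroup σ₂ m →* ℂˣ, ∑ᶠ g, (e g : ℂ) * ((χ g : ℂˣ) : ℂ) = EE χ m' from H J hJ0 m' hJ hle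
  clear hJ hJ0 hm'
  clear J
  intro J
  refine UniqueFactorizationMonoid.induction_on_prime J (fun h => absurd rfl h) ?_ ?_
  · intro J hJ _ m' hm' hle
    have h1 : m' = m := by
      rw [hm', Ideal.isUnit_iff.1 hJ, Ideal.mul_top]
    subst h1
    refine ⟨fun g => if g = 1 then 1 else 0, fun A => ?_, fun χ => ?_⟩
    · rw [UU_refl, finsum_eq_sum_of_fintype, Finset.sum_eq_single 1]
      · simp
      · intro g _ hg
        simp [hg]
      · intro h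
        exact absurd (Finset.mem_univ _) h
    · have h2 : Nw m' m' = ∅ := by
        ext q
        simp only [Nw, Set.mem_ofPred_eq, Set.mem_empty_iff_false, iff_false, not_and, not_not]
        exact fun h => h
      unfold EE
      rw [h2, finprod_mem_empty, finsum_eq_sum_of_fintype, Finset.sum_eq_single 1]
      · simp
      · intro g _ hg
        simp [hg]
      · intro h
        exact absurd (Finset.mem_univ _) h
  · intro J₀ p hJ₀ hp ih _ m' hm' hle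
    have hp0 : p ≠ ⊥ := hp.ne_zero
    let q : PrI K := ⟨p, Ideal.isPrime_of_prime hp, hp0⟩
    have hqp : q.asIdeal = p := rfl
    have hm₁ : m * J₀ ≠ ⊥ := mul_ne_bot' hm hJ₀
    have h2 : m * J₀ ≤ m := Ideal.mul_le_left
    obtain ⟨e₁, he₁, hE₁⟩ := ih hJ₀ (m * J₀) rfl h2
    have hm'2 : m' = m * J₀ * q.asIdeal := by
      rw [hm', hqp]
      ring
    have h1 : m * J₀ * q.asIdeal ≤ m * J₀ := Ideal.mul_le_left
    have hm'0 : m * J₀ * q.asIdeal ≠ ⊥ := mul_ne_bot' hm₁ q.ne_bot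
    have hnm₁ : n ∣ m * J₀ := hnm.trans (dvd_mul_right _ _)
    subst hm'2
    have hfac : ∀ v : PrI K, v.asIdeal ∣ m * J₀ * q.asIdeal → v.asIdeal ∣ m * J₀ ∨ v = q := by
      intro v hv
      rcases v.prime.dvd_or_dvd hv with h | h
      · exact Or.inl h
      · right
        have h3 : q.asIdeal ≤ v.asIdeal := Ideal.le_of_dvd h
        exact (HeightOneSpectrum.ext (q.isMaximal.eq_of_le v.isPrime.ne_top h3)).symm
    by_cases hq : q.asIdeal ∣ m * J₀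
    · refine ⟨e₁, fun A => ?_, fun χ => ?_⟩
      · rw [UU_trans hy hm hnm hm'0 h1 h2, ← he₁ A]
        have h3 : ∀ A₁, UU h1 A₁ = Lz σ₂ (m * J₀) A₁ := by
          intro A₁
          refine UU_same hy hm₁ hnm₁ hm'0 h1 (fun v hv => ?_) A₁
          rcases hfac v hv with h | rfl
          · exact h
          · exact hq
        simp_rw [h3]
        rfl
      · rw [hE₁ χ]
        unfold EE
        have h3 : Nw m (m * J₀ * q.asIdeal) = Nw m (m * J₀) := by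
          ext v
          constructor
          · rintro ⟨hv1, hv2⟩
            rcases hfac v hv1 with h | rfl
            · exact ⟨h, hv2⟩
            · exact ⟨hq, hv2⟩
          · rintro ⟨hv1, hv2⟩
            exact ⟨hv1.mul_right _, hv2⟩
        rw [h3]
    · have hqm : ¬ q.asIdeal ∣ m := fun h => hq (h.mul_right _)
      set Q := cls σ₂ m (prJ m q hqm) with hQ
      refine ⟨fun g => e₁ g - e₁ (g * Q), fun A => ?_, fun χ => ?_⟩
      · rw [V3_step hy hm hnm hm₁ h2 hq hqm h1 A, he₁, he₁, finsum_eq_sum_of_fintype, finsum_eq_sum_of_fintype,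
          finsum_eq_sum_of_fintype, ← Equiv.sum_comp (Equiv.mulRight Q) (fun g => (e₁ g : ℝ) * Lz σ₂ m (A * Q⁻¹ * g)),
          ← Finset.sum_sub_distrib]
        refine Finset.sum_congr rfl fun g _ => ?_
        rw [Equiv.coe_mulRight]
        have h3 : A * Q⁻¹ * (g * Q) = A * g := by
          rw [mul_comm g Q, ← mul_assoc, inv_mul_cancel_right]
        rw [h3]
        push_cast
        ring
      · have h3 : Nw m (m * J₀ * q.asIdeal) = insert q (Nw m (m * J₀)) := by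
          ext v
          rw [Set.mem_insert_iff]
          constructor
          · rintro ⟨hv1, hv2⟩
            rcases hfac v hv1 with h | h
            · exact Or.inr ⟨h, hv2⟩
            · exact Or.inl h
          · rintro (rfl | ⟨hv1, hv2⟩)
            · exact ⟨dvd_mul_left _ _, hqm⟩
            · exact ⟨hv1.mul_right _, hv2⟩
        have h4 : q ∉ Nw m (m * J₀) := fun h => hq h.1
        have h5 : EE χ (m * J₀ * q.asIdeal) = (1 - (((χ Q)⁻¹ : ℂˣ) : ℂ)) * EE χ (m * J₀) := by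
          unfold EE
          rw [h3, finprod_mem_insert _ h4 (Nw_finite m hm₁)]
          congr 2
          unfold chQ
          rw [dif_pos hqm, Units.val_inv_eq_inv_val]
        rw [h5, ← hE₁ χ, finsum_eq_sum_of_fintype, finsum_eq_sum_of_fintype]
        have h6 : ∑ g : RayClassGroup σ₂ m, (((e₁ g - e₁ (g * Q) : ℤ)) : ℂ) * ((χ g : ℂˣ) : ℂ) =
            ∑ g : RayClassGroup σ₂ m, (e₁ g : ℂ) * ((χ g : ℂˣ) : ℂ) -
            ∑ g : RayClassGroup σ₂ m, (e₁ (g * Q) : ℂ) * ((χ g : ℂˣ) : ℂ) := by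
          rw [← Finset.sum_sub_distrib]
          refine Finset.sum_congr rfl fun g _ => ?_
          push_cast
          ring
        have h7 : ∑ g : RayClassGroup σ₂ m, (e₁ (g * Q) : ℂ) * ((χ g : ℂˣ) : ℂ) =
            (((χ Q)⁻¹ : ℂˣ) : ℂ) * ∑ g : RayClassGroup σ₂ m, (e₁ g : ℂ) * ((χ g : ℂˣ) : ℂ) := by
          rw [Finset.mul_sum, ← Equiv.sum_comp (Equiv.mulRight Q)
            (fun g => (((χ Q)⁻¹ : ℂˣ) : ℂ) * ((e₁ g : ℂ) * ((χ g : ℂˣ) : ℂ)))]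
          refine Finset.sum_congr rfl fun g _ => ?_
          rw [Equiv.coe_mulRight, map_mul, Units.val_mul, Units.val_inv_eq_inv_val]
          have h8 : ((χ Q : ℂˣ) : ℂ) ≠ 0 := Units.ne_zero _
          field_simp
        rw [h6, h7]
        ring

/-- translation of the argument -/
lemma Hx2_shift {C : Type*} [CommGroup C] [Fintype C] (c : ℝ →ₗ[ℚ] ℚ) (f : C → ℝ) (χ : C →* ℂˣ) (g : C) :
    ∑ A : C, (((χ A)⁻¹ : ℂˣ) : ℂ) * ((c (f (A * g)) : ℚ) : ℂ) = ((χ g : ℂˣ) : ℂ) * SS c f χ := by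
  rw [SS_eq, Finset.mul_sum, ← Equiv.sum_comp (Equiv.mulRight g⁻¹)]
  refine Finset.sum_congr rfl fun A _ => ?_
  rw [Equiv.coe_mulRight, inv_mul_cancel_right, map_mul, map_inv, mul_inv, inv_inv, Units.val_mul]
  ring

theorem SS_UU (hy : Hx σ₂ n) (hm : m ≠ ⊥) (hnm : n ∣ m) (hm' : m' ≠ ⊥) (hle : m' ≤ m) (c : ℝ →ₗ[ℚ] ℚ)
    (χ : RayClassGroup σ₂ m →* ℂˣ) : SS c (UU hle) χ = SS c (Lz σ₂ m') (χ.comp (pr σ₂ hle)) := by
  classical
  have hnm' : n ∣ m' := hnm.trans (Ideal.dvd_iff_le.2 hle)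
  have f1 := hy.finite_cl hm hnm
  have f2 := hy.finite_cl hm' hnm'
  have := Fintype.ofFinite (RayClassGroup σ₂ m)
  have := Fintype.ofFinite (RayClassGroup σ₂ m')
  rw [SS_eq, SS_eq, ← Finset.sum_fiberwise (s := (Finset.univ : Finset (RayClassGroup σ₂ m')))
    (g := fun A' => pr σ₂ hle A')]
  refine Finset.sum_congr rfl fun A _ => ?_
  have h1 : UU hle A = ∑ A' ∈ Finset.univ.filter (fun A' : RayClassGroup σ₂ m' => pr σ₂ hle A' = A), Lz σ₂ m' A' := by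
    unfold UU
    rw [finsum_mem_eq_finite_toFinset_sum _ (Set.toFinite _)]
    refine Finset.sum_congr ?_ fun _ _ => rfl
    ext A'
    simp
  rw [h1, map_sum, Rat.cast_sum, Finset.mul_sum]
  refine Finset.sum_congr rfl fun A' hA' => ?_
  have h2 : pr σ₂ hle A' = A := (Finset.mem_filter.1 hA').2
  rw [MonoidHom.comp_apply, h2]

theorem SS_pr (hy : Hx σ₂ n) (hm : m ≠ ⊥) (hnm : n ∣ m) (hm' : m' ≠ ⊥) (hle : m' ≤ m) (c : ℝ →ₗ[ℚ] ℚ)
    (χ : RayClassGroup σ₂ m →* ℂˣ) :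
    SS c (Lz σ₂ m') (χ.comp (pr σ₂ hle)) = EE χ m' * SS c (Lz σ₂ m) χ := by
  classical
  have f1 := hy.finite_cl hm hnm
  have := Fintype.ofFinite (RayClassGroup σ₂ m)
  obtain ⟨e, he, hE⟩ := UU_all hy hm hnm hm' hle
  rw [← SS_UU hy hm hnm hm' hle, SS_eq, ← hE χ, finsum_eq_sum_of_fintype, Finset.sum_mul]
  have h1 : ∀ A : RayClassGroup σ₂ m, (((χ A)⁻¹ : ℂˣ) : ℂ) * ((c (UU hle A) : ℚ) : ℂ) =
      ∑ g : RayClassGroup σ₂ m, (e g : ℂ) * ((((χ A)⁻¹ : ℂˣ) : ℂ) * ((c (Lz σ₂ m (A * g)) : ℚ) : ℂ)) := by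
    intro A
    rw [he A, finsum_eq_sum_of_fintype, map_sum, Rat.cast_sum, Finset.mul_sum]
    refine Finset.sum_congr rfl fun g _ => ?_
    have h2 : (e g : ℝ) * Lz σ₂ m (A * g) = e g • Lz σ₂ m (A * g) := by
      rw [zsmul_eq_mul]
    rw [h2, map_zsmul, zsmul_eq_mul]
    push_cast
    ring
  simp_rw [h1]
  rw [Finset.sum_comm]
  refine Finset.sum_congr rfl fun g _ => ?_
  rw [← Finset.mul_sum, Hx2_shift, mul_assoc]

theorem InX_pr (hy : Hx σ₂ n) (hm : m ≠ ⊥) (hnm : n ∣ m) (hm' : m' ≠ ⊥) (hle : m' ≤ m)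
    (χ : RayClassGroup σ₂ m →* ℂˣ) :
    InX (Lz σ₂ m') (χ.comp (pr σ₂ hle)) ↔ InX (Lz σ₂ m) χ ∧ EE χ m' ≠ 0 := by
  constructor
  · rintro ⟨c, hc⟩
    rw [SS_pr hy hm hnm hm' hle] at hc
    exact ⟨⟨c, right_ne_zero_of_mul hc⟩, left_ne_zero_of_mul hc⟩
  · rintro ⟨⟨c, hc⟩, hE⟩
    refine ⟨c, ?_⟩
    rw [SS_pr hy hm hnm hm' hle]
    exact mul_ne_zero hE hc

theorem InX_lift (hy : Hx σ₂ n) (hm : m ≠ ⊥) (hnm : n ∣ m) (hm' : m' ≠ ⊥) (hle : m' ≤ m)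
    {χ : RayClassGroup σ₂ m →* ℂˣ} (hχ : InX (Lz σ₂ m) χ)
    (h : ∀ (q : PrI K) (h : ¬ q.asIdeal ∣ m), q.asIdeal ∣ m' → χ (cls σ₂ m (prJ m q h)) ≠ 1) :
    InX (Lz σ₂ m') (χ.comp (pr σ₂ hle)) :=
  (InX_pr hy hm hnm hm' hle χ).2 ⟨hχ, (EE_ne_zero hm' χ).2 h⟩

end Pool.Agent.STs
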