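import Pool.Agent.Lib.MP_1ef7cf_nt_r.Mg.G024
import Pool.Agent.Lib.MP_1ef7cf_nt_r.Mg.G025

/-!
# TASK SB: fields with roots of unity

`KZ K n = K(ζ_n)` (MP_1ef7cf_nt_d/KUM.lean), a subfield of `ℂ`. `ζ` a primitive `n`-th root of unity: `N ⊔ KZ K n = N(ζ)`.

PROOF. `cyc_deg`: `[N(ζ) : N] = φ(n)` (the minimal polynomial of `ζ` over `N` is `cyclotomic n N`) and the tower formula (cf. `E3_deg` in nt_r/E3, for real fields and `n` prime).
`cyc_inf`: let `X = (M ⊔ KZ K n) ⊓ N`, `M ≤ X ≤ N`, `X(ζ) = M(ζ)`. The minimal polynomial of `ζ` over `X` is divisible by the one over `N`, so `[M(ζ) : X] ≥ φ(n) ≥ [M(ζ) : M] = [M(ζ) : X] [X : M]`, so `[X : M] = 1`.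
(`n > 0`, everything is finite dimensional over `K`.)
`zeta_notMem`: for a primitive `r^2`-th root of unity `ζ`: `[M(ζ) : M] ≥ [N(ζ) : N] = r (r - 1)`, while `[M(ζ_r) : M] ≤ r - 1`; so `ζ ∉ M(ζ_r) = M ⊔ KZ K r`.
`pow_of_cyc`: `e = [X(ζ_l) : X]` is prime to `l` (`e ≤ l - 1`; `E2_degree` in nt_r/E2). The norm of `z` from `X(ζ_l)` to `X` is `u ∈ X` with `u^l = w^e`; choose `i`, `j` with `i e + j l = 1` (integers): `w = (u^i w^j)^l`.
-/

set_option autoImplicit false

open NumberField IsDedekindDomain nonZeroDivisors IntermediateField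

namespace Pool.Agent.STs

open Pool.Agent.ST
open Pool.Agent.STd (jR fixL KZ)

variable {K : Type*} [Field K] [NumberField K] [Algebra K ℝ] {N M X : IntermediateField K ℂ}

omit [NumberField K] in
/-- roots of unity as powers of a primitive one -/
private lemma SB_adjoin {n : ℕ} (hn : 0 < n) {ζ : ℂ} (hζ : IsPrimitiveRoot ζ n) :
    IntermediateField.adjoin K {ζ} = KZ K n := by
  unfold KZ
  apply le_antisymm
  · rw [IntermediateField.adjoin_le_iff, Set.singleton_subset_iff]
    exact IntermediateField.subset_adjoin K _ hζ.pow_eq_one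
  · rw [IntermediateField.adjoin_le_iff]
    intro x hx
    have : NeZero n := ⟨hn.ne'⟩
    obtain ⟨i, -, hi⟩ := hζ.eq_pow_of_pow_eq_one hx
    rw [← hi]
    exact pow_mem (IntermediateField.mem_adjoin_simple_self K ζ) i

private lemma SB_eq (E : IntermediateField K ℂ) {n : ℕ} (hn : 0 < n) {ζ : ℂ} (hζ : IsPrimitiveRoot ζ n) :
    IntermediateField.restrictScalars K (IntermediateField.adjoin E {ζ}) = E ⊔ KZ K n := by
  rw [IntermediateField.restrictScalars_adjoin_eq_sup, SB_adjoin hn hζ]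

private lemma SB_finrank (E : IntermediateField K ℂ) {n : ℕ} (hn : 0 < n) {ζ : ℂ} (hζ : IsPrimitiveRoot ζ n) :
    Module.finrank K (E ⊔ KZ K n : IntermediateField K ℂ) =
      Module.finrank K E * Module.finrank E (IntermediateField.adjoin E {ζ}) := by
  rw [← SB_eq E hn hζ]
  exact (Module.finrank_mul_finrank K E (IntermediateField.adjoin E {ζ})).symm

omit [NumberField K] in
private lemma SB_int (E : IntermediateField K ℂ) {n : ℕ} (hn : 0 < n) {ζ : ℂ} (hζ : IsPrimitiveRoot ζ n) :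
    IsIntegral E ζ :=
  ⟨Polynomial.cyclotomic n E, Polynomial.cyclotomic.monic n E, by
    rw [Polynomial.eval₂_eq_eval_map, Polynomial.map_cyclotomic]
    exact hζ.isRoot_cyclotomic hn⟩

private lemma SB_le (E : IntermediateField K ℂ) {n : ℕ} (hn : 0 < n) {ζ : ℂ} (hζ : IsPrimitiveRoot ζ n) :
    Module.finrank E (IntermediateField.adjoin E {ζ}) ≤ n.totient := by
  rw [IntermediateField.adjoin.finrank (SB_int E hn hζ)]
  have h2 : minpoly E ζ ∣ Polynomial.cyclotomic n E := by
    apply minpoly.dvd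
    rw [Polynomial.aeval_def, Polynomial.eval₂_eq_eval_map, Polynomial.map_cyclotomic]
    exact hζ.isRoot_cyclotomic hn
  have h3 := Polynomial.natDegree_le_of_dvd h2 (Polynomial.cyclotomic_ne_zero n E)
  rwa [Polynomial.natDegree_cyclotomic] at h3

omit [NumberField K] in
private lemma SB_irr (hle : M ≤ N) {n : ℕ} (hirr : Irreducible (Polynomial.cyclotomic n N)) :
    Irreducible (Polynomial.cyclotomic n M) := by
  apply Polynomial.Monic.irreducible_of_irreducible_map
    (IntermediateField.inclusion hle).toRingHom _ (Polynomial.cyclotomic.monic n M)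
  rw [Polynomial.map_cyclotomic]
  exact hirr

theorem cyc_deg [FiniteDimensional K N] {n : ℕ} (hn : 0 < n) (hirr : Irreducible (Polynomial.cyclotomic n N)) :
    Module.finrank K (N ⊔ KZ K n : IntermediateField K ℂ) = Module.finrank K N * n.totient := by
  have hζ := Complex.isPrimitiveRoot_exp n hn.ne'
  obtain ⟨ζ, hζe⟩ : ∃ ζ : ℂ, ζ = Complex.exp (2 * Real.pi * Complex.I / n) := ⟨_, rfl⟩
  rw [← hζe] at hζ
  have hroot : Polynomial.aeval ζ (Polynomial.cyclotomic n N) = 0 := by
    rw [Polynomial.aeval_def, Polynomial.eval₂_eq_eval_map, Polynomial.map_cyclotomic]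
    exact hζ.isRoot_cyclotomic hn
  have hmin : Polynomial.cyclotomic n N = minpoly N ζ :=
    minpoly.eq_of_irreducible_of_monic hirr hroot (Polynomial.cyclotomic.monic n N)
  rw [SB_finrank N hn hζ, IntermediateField.adjoin.finrank (SB_int N hn hζ), ← hmin,
    Polynomial.natDegree_cyclotomic]

theorem cyc_inf [FiniteDimensional K N] (hle : M ≤ N) {n : ℕ} (hn : 0 < n)
    (hirr : Irreducible (Polynomial.cyclotomic n N)) : (M ⊔ KZ K n) ⊓ N = M := by
  obtain ⟨X, hX⟩ : ∃ X : IntermediateField K ℂ, X = (M ⊔ KZ K n) ⊓ N := ⟨_, rfl⟩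
  rw [← hX]
  have hMX : M ≤ X := by rw [hX]; exact le_inf le_sup_left hle
  have hXN : X ≤ N := by rw [hX]; exact inf_le_right
  have hfX : FiniteDimensional K X := by
    refine FiniteDimensional.of_injective (IntermediateField.inclusion hXN).toLinearMap ?_
    exact (IntermediateField.inclusion hXN).injective
  have hfM : FiniteDimensional K M := by
    refine FiniteDimensional.of_injective (IntermediateField.inclusion hle).toLinearMap ?_
    exact (IntermediateField.inclusion hle).injective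
  have h1 := cyc_deg hn (SB_irr hXN hirr)
  have h2 := cyc_deg hn (SB_irr hle hirr)
  have h3 : X ⊔ KZ K n = M ⊔ KZ K n := by
    apply le_antisymm
    · refine sup_le ?_ le_sup_right
      rw [hX]
      exact inf_le_left
    · exact sup_le_sup_right hMX _
  rw [h3, h2] at h1
  have h4 : Module.finrank K M = Module.finrank K X :=
    Nat.eq_of_mul_eq_mul_right (Nat.totient_pos.2 hn) h1
  exact (IntermediateField.eq_of_le_of_finrank_eq hMX h4).symm

theorem zeta_notMem [FiniteDimensional K N] (hle : M ≤ N) {r : ℕ} (hr : r.Prime)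
    (hirr : Irreducible (Polynomial.cyclotomic (r ^ 2) N)) {ζ : ℂ} (hζ : IsPrimitiveRoot ζ (r ^ 2)) :
    ζ ∉ M ⊔ KZ K r := by
  intro hmem
  have hfM : FiniteDimensional K M := by
    refine FiniteDimensional.of_injective (IntermediateField.inclusion hle).toLinearMap ?_
    exact (IntermediateField.inclusion hle).injective
  have hr2 : 0 < r ^ 2 := pow_pos hr.pos 2
  have h1 := cyc_deg hr2 (SB_irr hle hirr)
  have h2 : (M ⊔ KZ K (r ^ 2)) ≤ M ⊔ KZ K r := by
    refine sup_le le_sup_left ?_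
    rw [← SB_adjoin hr2 hζ, IntermediateField.adjoin_simple_le_iff]
    exact hmem
  have hζ' := Complex.isPrimitiveRoot_exp r hr.ne_zero
  have h3 := SB_finrank M hr.pos hζ'
  have h4 := SB_le M hr.pos hζ'
  have hfr : FiniteDimensional K (M ⊔ KZ K r : IntermediateField K ℂ) := by
    have := (Pool.Agent.STd.KZ_fd (K := K) hr.pos).1
    exact IntermediateField.finiteDimensional_sup _ _
  have h5 : Module.finrank K (M ⊔ KZ K (r ^ 2) : IntermediateField K ℂ) ≤
      Module.finrank K (M ⊔ KZ K r : IntermediateField K ℂ) :=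
    IntermediateField.finrank_le_of_le_right h2
  rw [h1, h3] at h5
  have hpos : 0 < Module.finrank K M := Module.finrank_pos
  have h6 := Nat.le_of_mul_le_mul_left h5 hpos
  have h7 : (r ^ 2).totient ≤ r.totient := h6.trans h4
  rw [Nat.totient_prime_pow hr (by norm_num), Nat.totient_prime hr] at h7
  have h8 := hr.two_le
  have h9 : 2 * (r - 1) ≤ r ^ (2 - 1) * (r - 1) := by
    rw [show 2 - 1 = 1 by norm_num, pow_one]
    exact Nat.mul_le_mul_right _ h8
  omega

theorem pow_of_cyc {l : ℕ} (hl : l.Prime) {w z : ℂ} (hw : w ∈ X) (hw0 : w ≠ 0) (hz : z ∈ X ⊔ KZ K l)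
    (h : z ^ l = w) : ∃ y ∈ X, y ^ l = w := by
  have hζ := Complex.isPrimitiveRoot_exp l hl.ne_zero
  obtain ⟨ζ, hζe⟩ : ∃ ζ : ℂ, ζ = Complex.exp (2 * Real.pi * Complex.I / l) := ⟨_, rfl⟩
  rw [← hζe] at hζ
  rw [← SB_eq X hl.pos hζ] at hz
  obtain ⟨E, hE⟩ : ∃ E : IntermediateField X ℂ, E = IntermediateField.adjoin X {ζ} := ⟨_, rfl⟩
  have hzE : z ∈ E := by rw [hE]; exact hz
  have hfd : FiniteDimensional X E := by
    rw [hE]
    exact IntermediateField.adjoin.finiteDimensional (SB_int X hl.pos hζ)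
  have hdeg : Module.finrank X E < l := by
    have h1 := SB_le X hl.pos hζ
    rw [← hE, Nat.totient_prime hl] at h1
    have := hl.pos
    omega
  have hpos : 0 < Module.finrank X E := Module.finrank_pos
  obtain ⟨w', hw'⟩ : ∃ w' : X, w' = ⟨w, hw⟩ := ⟨_, rfl⟩
  have hw'0 : w' ≠ 0 := by
    intro h0
    rw [hw'] at h0
    exact hw0 (congrArg Subtype.val h0)
  obtain ⟨z', hz'⟩ : ∃ z' : E, z' = ⟨z, hzE⟩ := ⟨_, rfl⟩
  have hzl : z' ^ l = algebraMap X E w' := by
    rw [hz', hw']
    exact Subtype.ext h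
  have hnorm : (Algebra.norm X z') ^ l = w' ^ Module.finrank X E := by
    rw [← map_pow, hzl, Algebra.norm_algebraMap]
  have hcop : IsCoprime (Module.finrank X E : ℤ) (l : ℤ) :=
    Nat.isCoprime_iff_coprime.2 (Nat.coprime_of_lt_prime hpos.ne' hdeg hl).symm
  obtain ⟨a, b, hab⟩ := hcop
  have h1 : w' = w' ^ (a * (Module.finrank X E : ℤ) + b * (l : ℤ)) := by rw [hab, zpow_one]
  have h2 : ((Algebra.norm X z') ^ a * w' ^ b) ^ l =
      w' ^ (a * (Module.finrank X E : ℤ) + b * (l : ℤ)) := by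
    rw [mul_pow, ← zpow_natCast ((Algebra.norm X z') ^ a) l, ← zpow_mul, mul_comm a (l : ℤ), zpow_mul,
      zpow_natCast, hnorm, ← zpow_natCast (w' ^ b) l, ← zpow_mul, zpow_add₀ hw'0,
      mul_comm a (Module.finrank X E : ℤ), zpow_mul w' (Module.finrank X E : ℤ) a, zpow_natCast]
  have h3 : ((Algebra.norm X z') ^ a * w' ^ b) ^ l = w' := h2.trans h1.symm
  refine ⟨(((Algebra.norm X z') ^ a * w' ^ b : X) : ℂ), SetLike.coe_mem _, ?_⟩
  have h4 : (w' : ℂ) = w := by rw [hw']
  rw [← h4, ← SubmonoidClass.coe_pow, h3]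

end Pool.Agent.STs
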