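import Pool.Agent.Lib.MP_1ef7cf_nt_r.Df

/-!
# TASK SC: an element of a number field which is not a root of unity is an `l`-th power only for finitely many `l`

PROOF. If the valuation of `w` at some prime `P` is not `1`: `z ^ l = w` implies that `l` divides the integer `ord_P w ≠ 0`. Otherwise `w` is a unit of `𝓞 E` (all valuations are `1`); the group of units is finitely generated (Dirichlet, Mathlib:
`NumberField.Units` basis modulo torsion `NumberField.Units.basisModTorsion`, or `fundSystem`, `exist_unique_eq_mul_prod`), `w` is not torsion, so some coordinate `a ≠ 0` in the free group `(𝓞 E)ˣ / torsion`; `z` is a unit too and `l ∣ a`.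
-/

set_option autoImplicit false

open NumberField IsDedekindDomain nonZeroDivisors

namespace Pool.Agent.STs

/-- the numbers dividing a nonzero integer are bounded -/
private lemma SC_le {n m : ℤ} {l : ℕ} (hn : n ≠ 0) (h : (l : ℤ) * m = n) : l ≤ n.natAbs := by
  have h1 : (l : ℤ) ∣ n := ⟨m, h.symm⟩
  exact Nat.le_of_dvd (Int.natAbs_pos.2 hn) (Int.natCast_dvd.1 h1)

/-- an element all of whose valuations are `1` is a unit -/
private lemma SC_unit {E : Type*} [Field E] [NumberField E] {w : E} (h0 : w ≠ 0)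
    (h : ∀ v : HeightOneSpectrum (𝓞 E), v.valuation E w = 1) :
    ∃ W : (𝓞 E)ˣ, algebraMap (𝓞 E) E (W : 𝓞 E) = w := by
  obtain ⟨a, ha⟩ := HeightOneSpectrum.mem_integers_of_valuation_le_one E w fun v => (h v).le
  obtain ⟨b, hb⟩ := HeightOneSpectrum.mem_integers_of_valuation_le_one E w⁻¹ fun v => by
    rw [map_inv₀, h v, inv_one]
  have hab : a * b = 1 := by
    apply FaithfulSMul.algebraMap_injective (𝓞 E) E
    rw [map_mul, map_one, ha, hb, mul_inv_cancel₀ h0]
  exact ⟨_root_.Units.mkOfMulEqOne a b hab, ha⟩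

/-- units -/
private lemma SC_units {E : Type*} [Field E] [NumberField E] {W : (𝓞 E)ˣ} (hW : ∀ k : ℕ, 0 < k → W ^ k ≠ 1) :
    ∃ l₀ : ℕ, ∀ l : ℕ, l.Prime → l₀ < l → ∀ Z : (𝓞 E)ˣ, Z ^ l ≠ W := by
  classical
  obtain ⟨⟨ζ, e⟩, hζ, huniq⟩ := NumberField.Units.exist_unique_eq_mul_prod E W
  have hζt : ∃ k : ℕ, 0 < k ∧ ((ζ : (𝓞 E)ˣ)) ^ k = 1 := by
    exact isOfFinOrder_iff_pow_eq_one.1 ((CommGroup.mem_torsion _).1 ζ.2)
  obtain ⟨i, hi⟩ : ∃ i, e i ≠ 0 := by
    by_contra hcon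
    push Not at hcon
    obtain ⟨k, hk, hk1⟩ := hζt
    refine hW k hk ?_
    have h1 : W = (ζ : (𝓞 E)ˣ) := by
      rw [hζ]
      simp [hcon]
    rw [h1, hk1]
  refine ⟨(e i).natAbs, fun l hl hlt Z hZ => absurd ?_ (not_le.2 hlt)⟩
  obtain ⟨⟨ξ, f⟩, hξ, -⟩ := NumberField.Units.exist_unique_eq_mul_prod E Z
  have h1 := huniq (ξ ^ l, fun i => (l : ℤ) * f i) (by
    show W = ((ξ ^ l : NumberField.Units.torsion E) : (𝓞 E)ˣ) * ∏ i, NumberField.Units.fundSystem E i ^ ((l : ℤ) * f i)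
    rw [← hZ, hξ, mul_pow, SubmonoidClass.coe_pow, ← Finset.prod_pow]
    congr 1
    refine Finset.prod_congr rfl fun j _ => ?_
    rw [← zpow_natCast, ← zpow_mul, mul_comm])
  have h2 : (l : ℤ) * f i = e i := by
    have h3 := congrArg (fun p => p.2 i) h1
    exact h3
  exact SC_le hi h2

/-- a prime with nontrivial valuation -/
private lemma SC_val {x : WithZero (Multiplicative ℤ)} (hx0 : x ≠ 0) (hx1 : x ≠ 1) :
    ∃ l₀ : ℕ, ∀ l : ℕ, l.Prime → l₀ < l → ∀ z : WithZero (Multiplicative ℤ), z ^ l ≠ x := by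
  obtain ⟨n, rfl⟩ := WithZero.ne_zero_iff_exists.1 hx0
  have hn : Multiplicative.toAdd n ≠ 0 := by
    intro h
    apply hx1
    have : n = 1 := h
    rw [this, WithZero.coe_one]
  refine ⟨(Multiplicative.toAdd n).natAbs, fun l hl hlt z hz => absurd ?_ (not_le.2 hlt)⟩
  have hz0 : z ≠ 0 := by
    rintro rfl
    rw [zero_pow hl.ne_zero] at hz
    exact hx0 hz.symm
  obtain ⟨m, rfl⟩ := WithZero.ne_zero_iff_exists.1 hz0
  rw [← WithZero.coe_pow, WithZero.coe_inj] at hz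
  refine SC_le hn (m := Multiplicative.toAdd m) ?_
  rw [← hz, toAdd_pow, nsmul_eq_mul]

theorem finite_pow_nf {E : Type*} [Field E] [NumberField E] {w : E} (h0 : w ≠ 0) (h1 : ∀ k : ℕ, 0 < k → w ^ k ≠ 1) :
    ∃ l₀ : ℕ, ∀ l : ℕ, l.Prime → l₀ < l → ∀ z : E, z ^ l ≠ w := by
  by_cases hv : ∀ v : HeightOneSpectrum (𝓞 E), v.valuation E w = 1
  · obtain ⟨W, hW⟩ := SC_unit h0 hv
    obtain ⟨l₀, hl₀⟩ := SC_units (W := W) fun k hk hk1 => h1 k hk (by
      rw [← hW, ← map_pow, ← _root_.Units.val_pow_eq_pow_val, hk1, _root_.Units.val_one, map_one])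
    refine ⟨l₀, fun l hl hlt z hz => ?_⟩
    have hz0 : z ≠ 0 := by
      rintro rfl
      rw [zero_pow hl.ne_zero] at hz
      exact h0 hz.symm
    obtain ⟨Z, hZ⟩ := SC_unit hz0 fun v => by
      have h2 : (v.valuation E z) ^ l = 1 := by rw [← map_pow, hz, hv v]
      exact (pow_eq_one_iff_of_nonneg zero_le hl.ne_zero).1 h2
    refine hl₀ l hl hlt Z ?_
    apply _root_.Units.ext
    apply FaithfulSMul.algebraMap_injective (𝓞 E) E
    rw [_root_.Units.val_pow_eq_pow_val, map_pow, hZ, hW, hz]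
  · push Not at hv
    obtain ⟨v, hv⟩ := hv
    obtain ⟨l₀, hl₀⟩ := SC_val ((Valuation.ne_zero_iff _).2 h0) hv
    exact ⟨l₀, fun l hl hlt z hz => hl₀ l hl hlt (v.valuation E z) (by rw [← map_pow, hz])⟩

end Pool.Agent.STs
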