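import Pool.Agent.Lib.MP_1ef7cf_nt_s.Dw
import Pool.Agent.Lib.MP_1ef7cf_nt_r.Mg.G020
import Pool.Agent.Lib.MP_1ef7cf_nt_r.Mg.G015
import Pool.Agent.Lib.MP_1ef7cf_nt_r.Mg.G016

/-!
# TASK N8: inert primes which are nontrivial for two characters

PROOF. `exists_inert_pair'`: as `exists_inert_pair` (nt_r/N6) with the extra congruence: take a prime `p₀` with `jacobiSym d p₀ = -1` (`exists_nonres`, N6b), large; by the Chinese remainder theorem (`r₁` odd prime, not dividing `2 d`, so `8 d` and `r₁ ^ t` are coprime) and Dirichlet's theorem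
(`Nat.forall_exists_prime_gt_and_eq_mod` / as in nt_r/N6) there is a prime `p₁ > b`, `p₁ ≡ p₀ mod 8 d`, `p₁ ≡ 1 + r₁ mod r₁ ^ t`; `jacobiSym d p₁ = -1` depends only on `p₁ mod 8 d` (or `4 d`; for even `d` treat the factor 2 as in N6a). Then choose `p₂ > b` prime with `p₂ ≡ -p₁` modulo
`8 d r₁^t N`: `jacobi_neg` (N6a) gives `jacobiSym d p₂ = -1`. `N6_inert`: both are inert.
`exists_r2`: as `exists_r` (nt_r/N7): the classes of the two primes of the pair differ by `c` (`cls_pair`), so `κ [q₂] = - κ [q₁]`, one of them is `≠ 1`.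
`chi_ne`: `ψ ^ b = 1` with `r₁ ∤ b`, `η` norm type mod `r₁ ^ t` of order `r₁ ^ i`, `i ≥ 1`; `q = (r)`, `r ≡ ±(1 + r₁) mod r₁ ^ t`: `pn q = r ^ 2 ≡ (1 + r₁)^2`; `η [q] = η₀ (pn q) ≠ 1` (`NT.prime`, `wild_ne_p` of N4b with a prime `p ≡ 1 + r₁`, or directly `wild_ne`: `r₁ ^ 2` does not divide `(1+r₁)^(2(r₁-1)) - 1`); then
`mul_ne_one` (G2).
-/

set_option autoImplicit false

open NumberField IsDedekindDomain nonZeroDivisors IntermediateField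

namespace Pool.Agent.STs

open Pool.Agent.ST
open Pool.Agent.STr (Lz ev InX NT)
open Pool.Agent.STh.F (FD)

variable {K : Type*} [Field K] [NumberField K] [Algebra K ℝ] {σ₂ : K →+* ℝ} {m M : Ideal (𝓞 K)} {d : ℕ} {a : 𝓞 K}

omit [Algebra K ℝ] in
private lemma N8_cop {r t a : ℕ} (h : a ≡ 1 + r [MOD r ^ t]) : a.Coprime (r ^ t) := by
  rcases Nat.eq_zero_or_pos t with rfl | ht
  · simp
  · have h1 : a ≡ 1 [MOD r] := by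
      have h2 : a ≡ 1 + r [MOD r] := h.of_dvd (dvd_pow_self r ht.ne')
      have h3 : 1 + r ≡ 1 [MOD r] := by simp [Nat.ModEq]
      exact h2.trans h3
    have h4 : Nat.gcd a r = 1 := by
      rw [h1.gcd_eq]; simp
    exact Nat.Coprime.pow_right t h4

private theorem N8_inert (D : FD σ₂ d a) {p : ℕ} (hp : p.Prime)
    (hpd : ¬ p ∣ 2 * d) (h : jacobiSym d p = -1) :
    ∃ q : PrI K, q.asIdeal = Ideal.span {(p : 𝓞 K)} := by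
  obtain ⟨P, hN, -, hR⟩ := STh.F.typeK_inert D hp hpd h
  rcases STg.F.decomp D.deg hp with ⟨v, hv, -⟩ | ⟨v, w, hvw, hv, hw⟩
  · exact ⟨v, hv.symm⟩
  · exfalso
    have h1 : (p : 𝓞 K) ∈ v.asIdeal := by
      have h2 : Ideal.span {(p : 𝓞 K)} ≤ v.asIdeal := by
        rw [hvw]
        exact Ideal.mul_le_left (I := v.asIdeal) (J := w.asIdeal)
      exact h2 (Ideal.mem_span_singleton_self _)
    have h3 := hR v h1
    rw [← h3, hv] at hN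
    nlinarith [hp.two_le]

theorem exists_inert_pair' (D : FD σ₂ d a) {N : ℕ} (hN : N ≠ 0) {r₁ t : ℕ} (hr₁ : r₁.Prime) (hd : ¬ r₁ ∣ 2 * d) (b : ℕ) :
    ∃ (p₁ p₂ : ℕ) (q₁ q₂ : PrI K), p₁.Prime ∧ p₂.Prime ∧ b < p₁ ∧ b < p₂ ∧ q₁.asIdeal = Ideal.span {(p₁ : 𝓞 K)} ∧
      q₂.asIdeal = Ideal.span {(p₂ : 𝓞 K)} ∧ N ∣ p₁ + p₂ ∧ p₁ ≡ 1 + r₁ [MOD r₁ ^ t] ∧ r₁ ^ t ∣ p₂ + (1 + r₁) := by
  have hd0 : d ≠ 0 := by
    rintro rfl
    exact D.nsq ⟨0, rfl⟩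
  have hrt : r₁ ^ t ≠ 0 := pow_ne_zero _ hr₁.ne_zero
  obtain ⟨p₀, hp₀, hb₀, hj₀⟩ := STr.exists_nonres D.nsq (8 * d)
  have hp₀o : Odd p₀ := hp₀.odd_of_ne_two (by omega)
  have hc0 : p₀.Coprime (8 * d) := by
    rw [hp₀.coprime_iff_not_dvd]
    intro hdvd
    have := Nat.le_of_dvd (by omega) hdvd
    omega
  have hr2 : ¬ r₁ ∣ 2 := fun h => hd (h.mul_right d)
  have hrd : ¬ r₁ ∣ d := fun h => hd (h.mul_left 2)
  have hc1 : Nat.Coprime (8 * d) (r₁ ^ t) := by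
    apply Nat.Coprime.pow_right
    apply Nat.Coprime.mul_left
    · have h2 : Nat.Coprime r₁ 2 := (hr₁.coprime_iff_not_dvd).2 hr2
      exact (Nat.Coprime.pow_right 3 h2).symm
    · exact ((hr₁.coprime_iff_not_dvd).2 hrd).symm
  obtain ⟨y, hy1, hy2⟩ := Nat.chineseRemainder hc1 p₀ (1 + r₁)
  have hyc : y.Coprime (8 * d * r₁ ^ t) := by
    refine Nat.Coprime.mul_right ?_ (N8_cop hy2)
    have h3 : Nat.gcd y (8 * d) = Nat.gcd p₀ (8 * d) := hy1.gcd_eq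
    unfold Nat.Coprime
    rw [h3]
    exact hc0
  set M₁ : ℕ := 8 * d * N * r₁ ^ t with hM₁
  have hM0 : M₁ ≠ 0 := by
    rw [hM₁]
    have := hr₁.pos
    positivity
  obtain ⟨p₁, hb₁, hp₁, hpy⟩ := Nat.forall_exists_prime_gt_and_modEq (M₁ + b)
    (q := 8 * d * r₁ ^ t) (by have := hr₁.pos; positivity) hyc
  have hcop : Nat.Coprime p₁ M₁ := by
    rw [hp₁.coprime_iff_not_dvd]
    intro hdvd
    have := Nat.le_of_dvd (Nat.pos_of_ne_zero hM0) hdvd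
    omega
  have : NeZero M₁ := ⟨hM0⟩
  have hu : IsUnit ((p₁ : ZMod M₁)) := (ZMod.isUnit_iff_coprime _ _).2 hcop
  obtain ⟨p₂, hb₂, hp₂, heq⟩ := Nat.forall_exists_prime_gt_and_eq_mod hu.neg (M₁ + b)
  have hdvd : M₁ ∣ p₁ + p₂ := by
    rw [← ZMod.natCast_eq_zero_iff]
    push_cast
    rw [heq]
    ring
  have h8 : 8 * d ∣ p₁ + p₂ := (Dvd.intro (N * r₁ ^ t) (by rw [hM₁]; ring)).trans hdvd
  have hNd : N ∣ p₁ + p₂ := (Dvd.intro (8 * d * r₁ ^ t) (by rw [hM₁]; ring)).trans hdvd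
  have hrd' : r₁ ^ t ∣ p₁ + p₂ := (Dvd.intro_left (8 * d * N) (by rw [hM₁])).trans hdvd
  have hdle : 8 * d ≤ M₁ := by
    have h1 : 1 ≤ N := Nat.one_le_iff_ne_zero.2 hN
    have h2 : 1 ≤ r₁ ^ t := Nat.one_le_iff_ne_zero.2 hrt
    have h3 : 1 ≤ N * r₁ ^ t := Nat.mul_pos h1 h2
    calc 8 * d = 8 * d * 1 := by ring
      _ ≤ 8 * d * (N * r₁ ^ t) := Nat.mul_le_mul_left _ h3
      _ = M₁ := by rw [hM₁]; ring
  have hd1 : 1 ≤ d := Nat.one_le_iff_ne_zero.2 hd0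
  have hnd : ∀ p : ℕ, M₁ + b < p → ¬ p ∣ 2 * d := by
    intro p hp h
    have := Nat.le_of_dvd (by positivity) h
    omega
  have ho₁ : Odd p₁ := hp₁.odd_of_ne_two (by omega)
  have ho₂ : Odd p₂ := hp₂.odd_of_ne_two (by omega)
  have hm1 : p₁ ≡ p₀ [MOD 8 * d] := (hpy.of_dvd (Dvd.intro _ rfl)).trans hy1
  have hj₁ : jacobiSym d p₁ = -1 := by
    rw [← hj₀, jacobiSym.mod_right' d ho₁, jacobiSym.mod_right' d hp₀o]
    have h4 : p₁ ≡ p₀ [MOD 4 * d] := hm1.of_dvd ⟨2, by ring⟩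
    have h5 : p₁ % (4 * d) = p₀ % (4 * d) := h4
    rw [h5]
  have hj₂ : jacobiSym d p₂ = -1 := by rw [← STr.jacobi_neg hd0 ho₁ ho₂ h8, hj₁]
  obtain ⟨q₁, hq₁⟩ := N8_inert D hp₁ (hnd p₁ hb₁) hj₁
  obtain ⟨q₂, hq₂⟩ := N8_inert D hp₂ (hnd p₂ hb₂) hj₂
  have hm2 : p₁ ≡ 1 + r₁ [MOD r₁ ^ t] := (hpy.of_dvd (Dvd.intro_left _ rfl)).trans hy2
  refine ⟨p₁, p₂, q₁, q₂, hp₁, hp₂, by omega, by omega, hq₁, hq₂, hNd, hm2, ?_⟩
  have h6 : ((r₁ ^ t : ℕ) : ℤ) ∣ ((1 + r₁ : ℕ) : ℤ) - (p₁ : ℤ) := Nat.modEq_iff_dvd.1 hm2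
  have h7 : ((r₁ ^ t : ℕ) : ℤ) ∣ ((p₁ + p₂ : ℕ) : ℤ) := by exact_mod_cast hrd'
  have h8' := dvd_add h6 h7
  have h9 : ((1 + r₁ : ℕ) : ℤ) - (p₁ : ℤ) + ((p₁ + p₂ : ℕ) : ℤ) = ((p₂ + (1 + r₁) : ℕ) : ℤ) := by
    push_cast
    ring
  rw [h9] at h8'
  exact_mod_cast h8'

theorem exists_r2 (D : FD σ₂ d a) (hM : M ≠ ⊥) {c : RayClassGroup σ₂ M} (hc : IsC σ₂ M c)
    {κ : RayClassGroup σ₂ M →* ℂˣ} (hκ : κ c = -1) {r₁ t : ℕ} (hr₁ : r₁.Prime) (hd : ¬ r₁ ∣ 2 * d) (b : ℕ) :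
    ∃ (r : ℕ) (q : PrI K) (hq : ¬ q.asIdeal ∣ M), r.Prime ∧ b < r ∧ q.asIdeal = Ideal.span {(r : 𝓞 K)} ∧
      κ (cls σ₂ M (prJ M q hq)) ≠ 1 ∧ (r ≡ 1 + r₁ [MOD r₁ ^ t] ∨ r₁ ^ t ∣ r + (1 + r₁)) := by
  have hN : Ideal.absNorm M ≠ 0 := by
    rw [Ne, Ideal.absNorm_eq_zero_iff]; exact hM
  obtain ⟨p₁, p₂, q₁, q₂, hp₁, hp₂, hb₁, hb₂, h1, h2, hd', hm1, hm2⟩ :=
    exists_inert_pair' D hN (t := t) hr₁ hd (max b (Ideal.absNorm M))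
  have hq₁ : ¬ q₁.asIdeal ∣ M := STr.N7_not_dvd h1 hM (lt_of_le_of_lt (le_max_right _ _) hb₁)
  have hq₂ : ¬ q₂.asIdeal ∣ M := STr.N7_not_dvd h2 hM (lt_of_le_of_lt (le_max_right _ _) hb₂)
  have hmem : ((p₁ : 𝓞 K) + p₂) ∈ M := by
    obtain ⟨k, hk⟩ := hd'
    have : ((p₁ : 𝓞 K) + p₂) = (Ideal.absNorm M : 𝓞 K) * k := by
      rw [← Nat.cast_add, hk, Nat.cast_mul]
    rw [this]
    exact M.mul_mem_right _ (Ideal.absNorm_mem M)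
  have key := STr.cls_pair h1 h2 hp₁.ne_zero hp₂.ne_zero hq₁ hq₂ hmem hc
  by_cases h : κ (cls σ₂ M (prJ M q₁ hq₁)) = 1
  · refine ⟨p₂, q₂, hq₂, hp₂, lt_of_le_of_lt (le_max_left _ _) hb₂, h2, ?_, Or.inr hm2⟩
    rw [key, map_mul, h, hκ, one_mul]
    intro h'
    have h'' := congrArg (fun u : ℂˣ => (u : ℂ)) h'
    simp only [Units.val_neg, Units.val_one] at h''
    norm_num at h''
  · exact ⟨p₁, q₁, hq₁, hp₁, lt_of_le_of_lt (le_max_left _ _) hb₁, h1, h, Or.inl hm1⟩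

theorem chi_ne (h2 : Module.finrank ℚ K = 2) {r₁ t i b : ℕ} (hr₁ : r₁.Prime) (hr₁2 : r₁ ≠ 2) (hi : 1 ≤ i)
    (hMr : M ≤ Ideal.span {((r₁ ^ t : ℕ) : 𝓞 K)}) {ψ η : RayClassGroup σ₂ M →* ℂˣ} (hψ : ψ ^ b = 1) (hb : ¬ r₁ ∣ b)
    {η₀ : (ZMod (r₁ ^ t))ˣ →* ℂˣ} (ho : orderOf η₀ = r₁ ^ i) (hη : NT (r₁ ^ t) η₀ η) {r : ℕ} (hr : r.Prime) {q : PrI K}
    (hq : ¬ q.asIdeal ∣ M) (hqr : q.asIdeal = Ideal.span {(r : 𝓞 K)})
    (hrr : r ≡ 1 + r₁ [MOD r₁ ^ t] ∨ r₁ ^ t ∣ r + (1 + r₁)) : (ψ * η) (cls σ₂ M (prJ M q hq)) ≠ 1 := by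
  have hpn : pn q = r ^ 2 := by
    unfold pn
    rw [hqr, Ideal.absNorm_span_natCast, RingOfIntegers.rank, h2]
  have hsq : r ^ 2 ≡ (1 + r₁) ^ 2 [MOD r₁ ^ t] := by
    rcases hrr with h | h
    · exact h.pow 2
    · rw [Nat.modEq_iff_dvd]
      obtain ⟨k, hk⟩ := h
      have hk' : (r : ℤ) + (1 + r₁) = ((r₁ ^ t : ℕ) : ℤ) * k := by exact_mod_cast hk
      refine ⟨k * ((1 + r₁ : ℤ) - r), ?_⟩
      push_cast at hk' ⊢
      linear_combination ((1 + r₁ : ℤ) - r) * hk'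
  have hy : ((1 + r₁) ^ 2).Coprime (r₁ ^ t) := Nat.Coprime.pow_left 2 (N8_cop (Nat.ModEq.refl _))
  have hc : (pn q).Coprime (r₁ ^ t) := by
    rw [hpn]
    unfold Nat.Coprime
    rw [hsq.gcd_eq]
    exact hy
  have hun : ZMod.unitOfCoprime (pn q) hc = ZMod.unitOfCoprime ((1 + r₁) ^ 2) hy := by
    apply Units.ext
    rw [ZMod.coe_unitOfCoprime, ZMod.coe_unitOfCoprime, hpn]
    exact (ZMod.natCast_eq_natCast_iff _ _ _).2 hsq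
  have hne : η₀ (ZMod.unitOfCoprime (pn q) hc) ≠ 1 := by
    rw [hun]
    exact STr.wild_ne_p hr₁ hr₁2 hi ho (Or.inr rfl) (Nat.ModEq.refl _) hy
  rw [MonoidHom.mul_apply, hη.prime q hq hc]
  refine STr.mul_ne_one (i := i) hr₁ ?_ hb ?_ hne
  · have h1 := DFunLike.congr_fun hψ (cls σ₂ M (prJ M q hq))
    rwa [MonoidHom.pow_apply, MonoidHom.one_apply] at h1
  · have h1 : η₀ ^ (r₁ ^ i) = 1 := by rw [← ho]; exact pow_orderOf_eq_one η₀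
    have h3 := DFunLike.congr_fun h1 (ZMod.unitOfCoprime _ hc)
    rwa [MonoidHom.pow_apply, MonoidHom.one_apply] at h3

end Pool.Agent.STs
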