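import Pool.Agent.Lib.MP_1ef7cf_nt_s.X1
import Pool.Agent.Lib.MP_1ef7cf_nt_s.Mg.G007
import Pool.Agent.Lib.MP_1ef7cf_nt_s.Mg.G001

/-!
# TASK TA7c: the class of `v`, and the fixed numbers

PROOF. `cls_frob`: let `Q₀` be a prime of `L₀.H` over `v` (`exists_ovr`-like; or `exists_up` from `⊥`/any prime of `R₁` over `v` and `exists_dn`), `Q` a prime of `R₁` over `Q₀` (`exists_up`). `σ ^ k` is a Frobenius at `Q`, so `res (σ ^ k)` is a Frobenius at `Q₀` (`isFrob_und`), as is `L₀.Art [v]` (`L₀.rcf.frob`); `L₀.H` is unramified at `Q₀`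
(`L₀.rcf.frob`), so they are equal (`isFrob_unique`), i.e. `[v] = L₀.a (σ ^ k) = (L₀.a σ) ^ k`.
`gq_fix`: `exp (gq ...)` is a quotient of products of `exp (U (A'))`, all in `R₁` (`act_UU`), and `act (σ ^ j)` maps `exp (U A')` to `exp (U (A' * B^j))` (`act_UU` with `IsTr.pow`), so it maps `w = exp (gq U h (B^j) X Y A)` to `exp (gq U h (B^j) X Y (A * B^j)) = w` (`gq_inv`, `(B^j)^h = 1` for `h = Nat.card`). `j` is prime to the order of `σ`, so `σ` is a power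
of `σ ^ j` and `act σ w = w` (`act (τ ^ k) w = w` if `act τ w = w`).
-/

set_option autoImplicit false

open NumberField IsDedekindDomain nonZeroDivisors IntermediateField

namespace Pool.Agent.STs

open Pool.Agent.ST
open Pool.Agent.STr (Lz ev InX UU)

variable {K : Type*} [Field K] [NumberField K] [Algebra K ℝ] {σ₂ : K →+* ℝ} {n M M₀ M₁ : Ideal (𝓞 K)}
  {R₁ : IntermediateField K ℝ}

theorem cls_frob (hR₁ : AbR R₁) (L₀ : Lw σ₂ M₀ R₁) {σ : R₁ ≃ₐ[K] R₁} {v : PrI K} (hv : ¬ v.asIdeal ∣ M₀) {k : ℕ}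
    (hFr : ∀ Q : PrI R₁, und K Q = v → IsFrob K Q (σ ^ k)) : cls σ₂ M₀ (prJ M₀ v hv) = (L₀.a σ) ^ k := by
  have h1 := hR₁.numberField
  have h2 := L₀.rcf.finite
  have h3 := L₀.rcf.galois
  have h4 := numberField_of_fd L₀.H
  let _ : Algebra L₀.H R₁ := (inclusion L₀.le).toAlgebra
  have : IsScalarTower K L₀.H R₁ := IsScalarTower.of_algebraMap_eq' rfl
  obtain ⟨Q, hQ⟩ := exists_ovr (K := K) (L := R₁) v
  have h5 : IsFrob K (und L₀.H Q) (res L₀.le (σ ^ k)) := by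
    refine isFrob_und (fun x => ?_) (hFr Q hQ)
    apply Subtype.ext
    have h6 := act_res L₀.le (σ ^ k) x.2
    rw [act_coe, act_of_mem _ (L₀.le x.2)] at h6
    exact h6
  have hQ' : und K (und L₀.H Q) = v := by rw [und_und, hQ]
  obtain ⟨hun, hfr⟩ := L₀.rcf.isRCF.frobP (und L₀.H Q) (by simp) (prJ M₀ v hv) (by rw [coe_prJ, hQ'])
  have h7 := isFrob_unique hfr h5
  rw [← map_pow]
  symm
  apply L₀.Art.injective
  rw [X1_a_def, ← h7]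

private lemma TA7c_act (hx : Hx σ₂ n) (hM₁ : M₁ ≠ ⊥) (hnM₁ : n ∣ M₁) (hM : M ≠ ⊥) (hle : M ≤ M₁)
    (L₁ : Lw σ₂ M₁ R₁) {σ : R₁ ≃ₐ[K] R₁} {B : RayClassGroup σ₂ M₁} (hB : IsTr σ₂ M₁ σ B) (h : ℕ)
    (B₀ X Y A : RayClassGroup σ₂ M₁) :
    Real.exp (gq (UU hle) h B₀ X Y A) ∈ R₁ ∧
      act σ (Real.exp (gq (UU hle) h B₀ X Y A)) = Real.exp (gq (UU hle) h B₀ X Y (A * B)) := by
  have h1 := fun A => act_UU hx hM₁ hnM₁ hM hle L₁ hB A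
  have h2 : ∀ A, Real.exp (gq (UU hle) h B₀ X Y A) = ∏ i ∈ Finset.range h,
      (Real.exp (UU hle (A * B₀ ^ i)) * (Real.exp (UU hle (A * B₀ ^ i * X⁻¹)))⁻¹ *
        (Real.exp (UU hle (A * B₀ ^ i * Y⁻¹)))⁻¹ * Real.exp (UU hle (A * B₀ ^ i * X⁻¹ * Y⁻¹))) := by
    intro A
    unfold gq
    rw [Real.exp_sum]
    refine Finset.prod_congr rfl fun i _ => ?_
    rw [← Real.exp_neg, ← Real.exp_neg, ← Real.exp_add, ← Real.exp_add, ← Real.exp_add]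
    congr 1
  have h3 : ∀ i ∈ Finset.range h,
      (Real.exp (UU hle (A * B₀ ^ i)) * (Real.exp (UU hle (A * B₀ ^ i * X⁻¹)))⁻¹ *
        (Real.exp (UU hle (A * B₀ ^ i * Y⁻¹)))⁻¹ * Real.exp (UU hle (A * B₀ ^ i * X⁻¹ * Y⁻¹))) ∈ R₁ :=
    fun i _ => mul_mem (mul_mem (mul_mem (h1 _).1 (inv_mem (h1 _).1)) (inv_mem (h1 _).1)) (h1 _).1
  refine ⟨by rw [h2]; exact prod_mem h3, ?_⟩
  rw [h2, h2, act_prod _ _ _ h3]
  refine Finset.prod_congr rfl fun i _ => ?_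
  rw [act_mul _ (mul_mem (mul_mem (h1 _).1 (inv_mem (h1 _).1)) (inv_mem (h1 _).1)) (h1 _).1,
    act_mul _ (mul_mem (h1 _).1 (inv_mem (h1 _).1)) (inv_mem (h1 _).1),
    act_mul _ (h1 _).1 (inv_mem (h1 _).1), act_inv _ (h1 _).1, act_inv _ (h1 _).1,
    (h1 _).2, (h1 _).2, (h1 _).2, (h1 _).2]
  have e1 : A * B₀ ^ i * B = A * B * B₀ ^ i := mul_right_comm _ _ _
  have e2 : ∀ Z, A * B₀ ^ i * Z * B = A * B * B₀ ^ i * Z := fun Z => by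
    rw [mul_right_comm, e1]
  have e3 : A * B₀ ^ i * X⁻¹ * Y⁻¹ * B = A * B * B₀ ^ i * X⁻¹ * Y⁻¹ := by
    rw [mul_right_comm, e2]
  rw [e1, e2, e2, e3]

omit [NumberField K] in
private lemma TA7c_pow (σ : R₁ ≃ₐ[K] R₁) {w : ℝ} (hw : w ∈ R₁) (h : act σ w = w) (k : ℕ) :
    act (σ ^ k) w = w := by
  induction k with
  | zero => rw [pow_zero, act_one_left hw]
  | succ k ih => rw [pow_succ, act_comp _ _ hw, h, ih]

theorem gq_fix (hx : Hx σ₂ n) (hM₁ : M₁ ≠ ⊥) (hnM₁ : n ∣ M₁) (hM : M ≠ ⊥) (hle : M ≤ M₁) (hR₁ : AbR R₁)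
    (L₁ : Lw σ₂ M₁ R₁) {σ : R₁ ≃ₐ[K] R₁} {B : RayClassGroup σ₂ M₁} (hB : IsTr σ₂ M₁ σ B) {j : ℕ}
    (hj : j.Coprime (orderOf σ)) (X Y A : RayClassGroup σ₂ M₁) :
    Real.exp (gq (UU hle) (Nat.card (RayClassGroup σ₂ M₁)) (B ^ j) X Y A) ∈ R₁ ∧
      act σ (Real.exp (gq (UU hle) (Nat.card (RayClassGroup σ₂ M₁)) (B ^ j) X Y A)) =
        Real.exp (gq (UU hle) (Nat.card (RayClassGroup σ₂ M₁)) (B ^ j) X Y A) := by
  obtain ⟨h1, h2⟩ := TA7c_act hx hM₁ hnM₁ hM hle L₁ (hB.pow L₁.mem j) (Nat.card (RayClassGroup σ₂ M₁)) (B ^ j) X Y A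
  rw [gq_inv (UU hle) pow_card_eq_one' A] at h2
  refine ⟨h1, ?_⟩
  obtain ⟨m, hm⟩ := exists_pow_eq_self_of_coprime hj
  have h3 := TA7c_pow (σ ^ j) h1 h2 m
  rwa [hm] at h3

theorem pow_ne_one_of_cop {z : ℂˣ} {k j : ℕ} (hz : z ≠ 1) (hk : z ^ k = 1) (hj : j.Coprime k) : z ^ j ≠ 1 := by
  intro h
  apply hz
  rw [← orderOf_eq_one_iff, ← Nat.dvd_one, ← hj.gcd_eq_one]
  exact Nat.dvd_gcd (orderOf_dvd_of_pow_eq_one h) (orderOf_dvd_of_pow_eq_one hk)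

end Pool.Agent.STs
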