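import Pool.Agent.Lib.MP_1ef7cf_nt_s.Dw
import Pool.Agent.Lib.MP_1ef7cf_nt_r.Mg.G015
import Pool.Agent.Lib.MP_1ef7cf_nt_r.Mg.G018
import Pool.Agent.Lib.MP_1ef7cf_nt_r.Mg.G020

/-!
# TASK TA1: the sign, and the class of the conjugate prime

`M₀ ≤ (N₀) ≤ M₁`, `4 ∣ N₀`. `C₀` a class modulo `M₀`.

PROOF. Let `I` be an integral ideal, prime to `M₀`, with class `C₀` (`exists_int`, nt_r/N3a), `x₀ = absNorm I`, prime to `N₀` (`coprime_absNorm`, N1), odd. For `s ∈ {1, 3}` let `x_s ∈ ℕ`, `x_s > 0`, `x_s ≡ ± x₀ mod N₀` and `x_s % 4 = s` (`x_s = x₀` or `x_s = k N₀ - x₀`, since `4 ∣ N₀` the sign changes `x mod 4` from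
`1` to `3`). `X_s` = the class modulo `M₁` of the principal ideal `(x_s)` (`x_s` is prime to `N₀`, and `(N₀) ≤ M₁`... an ideal prime to `N₀` is prime to `M₁` because `M₁ ∣ (N₀)`). `X_3 = X_1 * c` since `x_1 + x_3 ∈ (N₀) ≤ M₁` (`cls_pair`-like, N7a: `(x_3) = (-x_3)`, `-x_3/x_1 ≡ 1`, negative at `σ₂`;
`IsC`), so `χ X_3 = - χ X_1`, and one of them is `≠ z`. Take this `s`, `X = X_s`, `x = x_s`.
Property 3: `[v]_{M₀} = C₀^j`, `p = pn v` prime, `p % 4 = s`, `s = 3 → j` odd. The ideals `v` and `I^j` have the same class modulo `M₀ ≤ (N₀)`, so `p ≡ ± x₀^j ≡ ± x^j mod N₀` (`norm_cls`, N1). Modulo `4`: `x^j ≡ s^j ≡ s ≡ p`; if `p ≡ - x^j mod N₀` then `p ≡ -p mod 4`, impossible for odd `p`. So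
`p ≡ x^j mod N₀`, hence the positive integers `p` and `x^j` are congruent modulo `N₀ ∈ M₁` and `[(p)]_{M₁} = [(x^j)]_{M₁} = X^j`. And `[(p)] = [v][v']`.
(`j = 0`: `C₀^0 = 1`, then `s = 1`... all formulas remain true with `x^0 = 1`.)
Properties 4, 5: `C₀^k = 1`: `x₀^k ≡ ± 1 mod N₀` (`norm_cls` for `I^k` and the unit ideal), `x^k ≡ ± 1`. If `s = 1`, modulo `4`: the sign is `+`, `X^k = 1`. In general `x^{2k} ≡ 1 mod N₀`, `X^{2k} = 1`.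
-/

set_option autoImplicit false

open NumberField IsDedekindDomain nonZeroDivisors IntermediateField

namespace Pool.Agent.STs

open Pool.Agent.ST

variable {K : Type*} [Field K] [NumberField K] [Algebra K ℝ] {σ₂ : K →+* ℝ} {M₀ M₁ : Ideal (𝓞 K)}

/-- classes of positive integers which are congruent -/
private lemma TA1_eq {m : Ideal (𝓞 K)} {x y : ℕ} {J₁ J₂ : primeTo (K := K) m}
    (h1 : ((J₁ : (FI K)ˣ) : FI K) = ((Ideal.span {(x : 𝓞 K)} : Ideal (𝓞 K)) : FI K))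
    (h2 : ((J₂ : (FI K)ˣ) : FI K) = ((Ideal.span {(y : 𝓞 K)} : Ideal (𝓞 K)) : FI K))
    (hx : x ≠ 0) (hy : y ≠ 0) (h : (y : 𝓞 K) - x ∈ m) : cls σ₂ m J₁ = cls σ₂ m J₂ := by
  rw [cls_eq_iff]
  have hcop : IsCoprime (Ideal.span {(x : 𝓞 K)}) m := coprime_of_mem_primeTo h1 J₁.2
  refine ⟨((y : 𝓞 K) : K) / ((x : 𝓞 K) : K), ⟨(y : 𝓞 K), (x : 𝓞 K), hcop, h, rfl⟩, ?_, ?_⟩
  · have h4 : (0 : ℝ) < x := by positivity
    have h5 : (0 : ℝ) < y := by positivity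
    have h6 : σ₂ (((y : 𝓞 K) : K) / ((x : 𝓞 K) : K)) = (y : ℝ) / x := by
      push_cast
      rw [map_div₀, map_natCast, map_natCast]
    rw [h6]
    positivity
  · rw [Units.val_mul, Units.val_inv_eq_inv_val, h1, h2,
      coe_span_singleton, coe_span_singleton, FractionalIdeal.spanSingleton_inv,
      FractionalIdeal.spanSingleton_mul_spanSingleton]
    congr 1
    ring

/-- classes of positive integers with sum in `m` -/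
private lemma TA1_neg {m : Ideal (𝓞 K)} {x y : ℕ} {J₁ J₂ : primeTo (K := K) m}
    (h1 : ((J₁ : (FI K)ˣ) : FI K) = ((Ideal.span {(x : 𝓞 K)} : Ideal (𝓞 K)) : FI K))
    (h2 : ((J₂ : (FI K)ˣ) : FI K) = ((Ideal.span {(y : 𝓞 K)} : Ideal (𝓞 K)) : FI K))
    (hx : x ≠ 0) (hy : y ≠ 0) (h : (x : 𝓞 K) + y ∈ m) {c : RayClassGroup σ₂ m} (hc : IsC σ₂ m c) :
    cls σ₂ m J₂ = cls σ₂ m J₁ * c := by
  obtain ⟨z, C, hz1, hz2, hC, rfl⟩ := hc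
  have h2' : (Ideal.span {(y : 𝓞 K)} : Ideal (𝓞 K)) = Ideal.span {(-(y : 𝓞 K))} := by
    rw [Ideal.span_singleton_neg]
  have hcop : IsCoprime (Ideal.span {(y : 𝓞 K)}) m := coprime_of_mem_primeTo h2 J₂.2
  rw [← map_mul, cls_eq_iff]
  refine ⟨((x * z : 𝓞 K) : K) / ((-(y : 𝓞 K) : 𝓞 K) : K), ⟨(x : 𝓞 K) * z, -(y : 𝓞 K), ?_, ?_, rfl⟩, ?_, ?_⟩
  · rw [← h2']
    exact hcop
  · have h3 : (x : 𝓞 K) * z - -(y : 𝓞 K) = (x : 𝓞 K) * (z - 1) + ((x : 𝓞 K) + y) := by ring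
    rw [h3]
    exact m.add_mem (m.mul_mem_left _ hz1) h
  · have h4 : (0 : ℝ) < x := by positivity
    have h5 : (0 : ℝ) < y := by positivity
    have h6 : σ₂ (((x * z : 𝓞 K) : K) / ((-(y : 𝓞 K) : 𝓞 K) : K)) = (x : ℝ) * (-σ₂ (z : K)) / y := by
      push_cast
      rw [map_div₀, map_mul, map_neg, map_natCast, map_natCast, div_neg, mul_neg, neg_div]
    rw [h6]
    have h7 : 0 < -σ₂ (z : K) := by linarith
    positivity
  · rw [Subgroup.coe_mul, Units.val_mul, Units.val_mul, Units.val_inv_eq_inv_val, hC, h2, h2', h1,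
      coe_span_singleton, coe_span_singleton, coe_span_singleton, FractionalIdeal.spanSingleton_inv,
      FractionalIdeal.spanSingleton_mul_spanSingleton, FractionalIdeal.spanSingleton_mul_spanSingleton]
    congr 1
    push_cast
    ring

omit [Algebra K ℝ] in
private lemma TA1_pow {m : Ideal (𝓞 K)} {I : Ideal (𝓞 K)} {J : primeTo (K := K) m}
    (h : ((J : (FI K)ˣ) : FI K) = (I : FI K)) (j : ℕ) :
    (((J ^ j : primeTo (K := K) m) : (FI K)ˣ) : FI K) = ((I ^ j : Ideal (𝓞 K)) : FI K) := by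
  rw [Subgroup.coe_pow, Units.val_pow_eq_pow_val, h, FractionalIdeal.coeIdeal_pow]

omit [Algebra K ℝ] in
private lemma TA1_mem {N : ℕ} {M : Ideal (𝓞 K)} (hM : Ideal.span {(N : 𝓞 K)} ≤ M) {a b : ℕ}
    (h : (N : ℤ) ∣ (a : ℤ) - b) : (a : 𝓞 K) - b ∈ M := by
  obtain ⟨k, hk⟩ := h
  apply hM
  rw [Ideal.mem_span_singleton]
  refine ⟨(k : 𝓞 K), ?_⟩
  have := congrArg (fun z : ℤ => (z : 𝓞 K)) hk
  push_cast at this
  exact this

/-- the signs of the powers -/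
private lemma TA1_sgn {N x x₀ : ℤ} (h : N ∣ x - x₀ ∨ N ∣ x + x₀) {a : ℤ} (j : ℕ)
    (ha : N ∣ a - x₀ ^ j ∨ N ∣ a + x₀ ^ j) : N ∣ a - x ^ j ∨ N ∣ a + x ^ j := by
  have h1 : N ∣ x ^ j - x₀ ^ j ∨ N ∣ x ^ j + x₀ ^ j := by
    rcases h with h | h
    · exact Or.inl (h.trans (sub_dvd_pow_sub_pow x x₀ j))
    · have h2 : N ∣ x - (-x₀) := by rwa [sub_neg_eq_add]
      have h3 := h2.trans (sub_dvd_pow_sub_pow x (-x₀) j)
      rcases Nat.even_or_odd j with hj | hj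
      · rw [hj.neg_pow] at h3
        exact Or.inl h3
      · rw [hj.neg_pow, sub_neg_eq_add] at h3
        exact Or.inr h3
  rcases h1 with h1 | h1 <;> rcases ha with ha | ha
  · left
    have := dvd_sub ha h1
    have e : a - x₀ ^ j - (x ^ j - x₀ ^ j) = a - x ^ j := by ring
    rwa [e] at this
  · right
    have := dvd_add ha h1
    have e : a + x₀ ^ j + (x ^ j - x₀ ^ j) = a + x ^ j := by ring
    rwa [e] at this
  · right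
    have := dvd_add ha h1
    have e : a - x₀ ^ j + (x ^ j + x₀ ^ j) = a + x ^ j := by ring
    rwa [e] at this
  · left
    have := dvd_sub ha h1
    have e : a + x₀ ^ j - (x ^ j + x₀ ^ j) = a - x ^ j := by ring
    rwa [e] at this

private lemma TA1_mod4 {x s j : ℕ} (hs : s = 1 ∨ s = 3) (hx : x % 4 = s) (hj : s = 3 → Odd j) :
    x ^ j % 4 = s := by
  rw [Nat.pow_mod, hx]
  rcases hs with rfl | rfl
  · simp
  · obtain ⟨k, rfl⟩ := hj rfl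
    rw [pow_succ, pow_mul, Nat.mul_mod, Nat.pow_mod]
    norm_num

theorem exists_sign (h2 : Module.finrank ℚ K = 2) (hM₀ : M₀ ≠ ⊥) {N₀ : ℕ} (hN₀ : N₀ ≠ 0) (h4 : 4 ∣ N₀)
    (h01 : Ideal.span {(N₀ : 𝓞 K)} ≤ M₁) (h00 : M₀ ≤ Ideal.span {(N₀ : 𝓞 K)})
    [Finite (RayClassGroup σ₂ M₀)] {c : RayClassGroup σ₂ M₁} (hc : IsC σ₂ M₁ c) {χ : RayClassGroup σ₂ M₁ →* ℂˣ}
    (hχ : χ c = -1) (C₀ : RayClassGroup σ₂ M₀) (z : ℂˣ) :
    ∃ (s : ℕ) (X : RayClassGroup σ₂ M₁), (s = 1 ∨ s = 3) ∧ χ X ≠ z ∧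
      (∀ (v v' : PrI K) (j : ℕ) (hv : ¬ v.asIdeal ∣ M₀) (hv₁ : ¬ v.asIdeal ∣ M₁) (hv₁' : ¬ v'.asIdeal ∣ M₁),
        cls σ₂ M₀ (prJ M₀ v hv) = C₀ ^ j → (pn v).Prime → pn v % 4 = s → (s = 3 → Odd j) →
        v.asIdeal * v'.asIdeal = Ideal.span {(pn v : 𝓞 K)} →
        cls σ₂ M₁ (prJ M₁ v hv₁) * cls σ₂ M₁ (prJ M₁ v' hv₁') = X ^ j) ∧
      (∀ k : ℕ, C₀ ^ k = 1 → X ^ (2 * k) = 1) ∧ (s = 1 → ∀ k : ℕ, C₀ ^ k = 1 → X ^ k = 1) := by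
  obtain ⟨I, J, hJ, hJC⟩ := STr.exists_int hM₀ C₀
  obtain ⟨x₀, hx₀⟩ : ∃ x₀ : ℕ, x₀ = Ideal.absNorm I := ⟨_, rfl⟩
  have hcop₀ : x₀.Coprime N₀ := by
    rw [hx₀]
    exact STr.coprime_absNorm hN₀ h00 (coprime_of_mem_primeTo hJ J.2)
  have hodd₀ : x₀ % 4 = 1 ∨ x₀ % 4 = 3 := by
    have h3 : x₀.Coprime 2 := hcop₀.coprime_dvd_right ((by norm_num : 2 ∣ 4).trans h4)
    have h5 : x₀ % 2 = 1 := by
      rcases Nat.mod_two_eq_zero_or_one x₀ with h | h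
      · exfalso
        have h6 : 2 ∣ Nat.gcd x₀ 2 := Nat.dvd_gcd (Nat.dvd_of_mod_eq_zero h) dvd_rfl
        rw [h3] at h6
        omega
      · exact h
    omega
  have hx₀0 : x₀ ≠ 0 := by
    rintro rfl
    omega
  -- the two integers
  have hex : ∀ s : ℕ, s = 1 ∨ s = 3 → ∃ x : ℕ, x ≠ 0 ∧ x % 4 = s ∧
      ((N₀ : ℤ) ∣ (x : ℤ) - x₀ ∨ (N₀ : ℤ) ∣ (x : ℤ) + x₀) ∧ x.Coprime N₀ ∧ (x = x₀ ∨ x = x₀ * (N₀ - 1)) := by
    intro s hs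
    obtain ⟨k, hk⟩ := h4
    have hk0 : k ≠ 0 := by
      rintro rfl
      exact hN₀ (by rw [hk])
    have hN4 : 4 ≤ N₀ := by
      rw [hk]
      omega
    by_cases h : x₀ % 4 = s
    · exact ⟨x₀, hx₀0, h, Or.inl (by rw [sub_self]; exact dvd_zero _), hcop₀, Or.inl rfl⟩
    · refine ⟨x₀ * (N₀ - 1), Nat.mul_ne_zero hx₀0 (by omega), ?_, Or.inr ?_, ?_, Or.inr rfl⟩
      · have h5 : (N₀ - 1) % 4 = 3 := by omega
        rw [Nat.mul_mod, h5]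
        rcases hodd₀ with h6 | h6 <;> rw [h6] <;> omega
      · refine ⟨x₀, ?_⟩
        rw [Nat.cast_mul, Nat.cast_sub (by omega)]
        push_cast
        ring
      · refine Nat.Coprime.mul_left hcop₀ ?_
        have h5 : Nat.Coprime (N₀ - 1) (N₀ - 1 + 1) := by simp
        rwa [Nat.sub_add_cancel (by omega : 1 ≤ N₀)] at h5
  -- ideals prime to `N₀` are prime to `M₁`
  have hI₁ : ∀ x : ℕ, x.Coprime N₀ → IsCoprime (Ideal.span {(x : 𝓞 K)}) M₁ := by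
    intro x hx
    have h5 : IsCoprime (x : ℤ) (N₀ : ℤ) := Nat.isCoprime_iff_coprime.2 hx
    have h6 := h5.map (Int.castRingHom (𝓞 K))
    have h7 : IsCoprime (Ideal.span {(x : 𝓞 K)}) (Ideal.span {(N₀ : 𝓞 K)}) := by
      rw [Ideal.isCoprime_span_singleton_iff]
      simpa using h6
    exact isCoprime_of_le h7 h01
  have hspan : ∀ x : ℕ, x ≠ 0 → (Ideal.span {(x : 𝓞 K)} : Ideal (𝓞 K)) ≠ ⊥ := by
    intro x hx
    rw [Ne, Ideal.span_singleton_eq_bot]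
    exact_mod_cast hx
  -- the properties of the class of such an integer
  have key : ∀ (s x : ℕ) (Jx : primeTo (K := K) M₁), s = 1 ∨ s = 3 → x ≠ 0 → x % 4 = s →
      ((N₀ : ℤ) ∣ (x : ℤ) - x₀ ∨ (N₀ : ℤ) ∣ (x : ℤ) + x₀) →
      ((Jx : (FI K)ˣ) : FI K) = ((Ideal.span {(x : 𝓞 K)} : Ideal (𝓞 K)) : FI K) →
      (∀ (v v' : PrI K) (j : ℕ) (hv : ¬ v.asIdeal ∣ M₀) (hv₁ : ¬ v.asIdeal ∣ M₁) (hv₁' : ¬ v'.asIdeal ∣ M₁),
        cls σ₂ M₀ (prJ M₀ v hv) = C₀ ^ j → (pn v).Prime → pn v % 4 = s → (s = 3 → Odd j) →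
        v.asIdeal * v'.asIdeal = Ideal.span {(pn v : 𝓞 K)} →
        cls σ₂ M₁ (prJ M₁ v hv₁) * cls σ₂ M₁ (prJ M₁ v' hv₁') = (cls σ₂ M₁ Jx) ^ j) ∧
      (∀ k : ℕ, C₀ ^ k = 1 → (cls σ₂ M₁ Jx) ^ (2 * k) = 1) ∧
      (s = 1 → ∀ k : ℕ, C₀ ^ k = 1 → (cls σ₂ M₁ Jx) ^ k = 1) := by
    intro s x Jx hs hx0 hxs hsg hJx
    have hpw : ∀ j : ℕ, (((Jx ^ j : primeTo (K := K) M₁) : (FI K)ˣ) : FI K) =
        ((Ideal.span {((x ^ j : ℕ) : 𝓞 K)} : Ideal (𝓞 K)) : FI K) := by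
      intro j
      rw [TA1_pow hJx j, Ideal.span_singleton_pow, Nat.cast_pow]
    have hone : (((1 : primeTo (K := K) M₁) : (FI K)ˣ) : FI K) =
        ((Ideal.span {((1 : ℕ) : 𝓞 K)} : Ideal (𝓞 K)) : FI K) := by
      rw [Nat.cast_one, Ideal.span_singleton_one]
      simp
    have hone₀ : (((1 : primeTo (K := K) M₀) : (FI K)ˣ) : FI K) = ((⊤ : Ideal (𝓞 K)) : FI K) := by
      simp
    have hk1 : ∀ k : ℕ, C₀ ^ k = 1 → (N₀ : ℤ) ∣ ((1 : ℕ) : ℤ) - (x : ℤ) ^ k ∨ (N₀ : ℤ) ∣ ((1 : ℕ) : ℤ) + (x : ℤ) ^ k := by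
      intro k hk
      refine TA1_sgn hsg k ?_
      have h5 := STr.norm_cls h2 hN₀ hM₀ h00 (σ₂ := σ₂) (I := ⊤) (I' := I ^ k) hone₀ (TA1_pow hJ k)
        (by rw [map_one, map_pow, hJC, hk])
      rw [map_pow, ← hx₀] at h5
      simpa using h5
    refine ⟨fun v v' j hv hv₁ hv₁' hcl hp hps hj hvv => ?_, fun k hk => ?_, fun hs1 k hk => ?_⟩
    · have h5 := STr.norm_cls h2 hN₀ hM₀ h00 (σ₂ := σ₂) (I := v.asIdeal) (I' := I ^ j) (coe_prJ M₀ v hv)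
        (TA1_pow hJ j) (by rw [hcl, map_pow, hJC])
      rw [map_pow, ← hx₀] at h5
      have h6 : (N₀ : ℤ) ∣ ((pn v : ℕ) : ℤ) - (x : ℤ) ^ j ∨ (N₀ : ℤ) ∣ ((pn v : ℕ) : ℤ) + (x : ℤ) ^ j := by
        refine TA1_sgn hsg j ?_
        have e : pn v = Ideal.absNorm v.asIdeal := rfl
        rw [e]
        push_cast at h5
        exact h5
      have h7 : x ^ j % 4 = s := TA1_mod4 hs hxs hj
      have h8 : (N₀ : ℤ) ∣ ((pn v : ℕ) : ℤ) - ((x ^ j : ℕ) : ℤ) := by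
        rcases h6 with h6 | h6
        · rw [Nat.cast_pow]
          exact h6
        · exfalso
          have h9 : ((4 : ℕ) : ℤ) ∣ ((pn v + x ^ j : ℕ) : ℤ) := by
            refine (Int.natCast_dvd_natCast.2 h4).trans ?_
            push_cast
            exact h6
          have h10 : 4 ∣ pn v + x ^ j := Int.natCast_dvd_natCast.1 h9
          omega
      have h9 : (((prJ M₁ v hv₁ * prJ M₁ v' hv₁' : primeTo (K := K) M₁) : (FI K)ˣ) : FI K) =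
          ((Ideal.span {((pn v : ℕ) : 𝓞 K)} : Ideal (𝓞 K)) : FI K) := by
        rw [Subgroup.coe_mul, Units.val_mul, coe_prJ, coe_prJ, ← FractionalIdeal.coeIdeal_mul, hvv]
      rw [← map_mul, ← map_pow]
      exact (TA1_eq (hpw j) h9 (pow_ne_zero _ hx0) hp.ne_zero (TA1_mem h01 h8)).symm
    · have h5 : (N₀ : ℤ) ∣ ((1 : ℕ) : ℤ) - ((x ^ (2 * k) : ℕ) : ℤ) := by
        rw [mul_comm 2 k, pow_mul]
        push_cast
        rcases hk1 k hk with h | h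
        · have := h.mul_right (1 + (x : ℤ) ^ k)
          have e : (((1 : ℕ) : ℤ) - (x : ℤ) ^ k) * (1 + (x : ℤ) ^ k) = 1 - ((x : ℤ) ^ k) ^ 2 := by
            push_cast
            ring
          rwa [e] at this
        · have := h.mul_right (1 - (x : ℤ) ^ k)
          have e : (((1 : ℕ) : ℤ) + (x : ℤ) ^ k) * (1 - (x : ℤ) ^ k) = 1 - ((x : ℤ) ^ k) ^ 2 := by
            push_cast
            ring
          rwa [e] at this
      have h6 := TA1_eq (σ₂ := σ₂) (hpw (2 * k)) hone (pow_ne_zero _ hx0) one_ne_zero (TA1_mem h01 h5)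
      rw [← map_pow, h6, map_one]
    · have h7 : x ^ k % 4 = 1 := TA1_mod4 (s := 1) (Or.inl rfl) (by rw [hxs, hs1]) (fun h => by omega)
      have h5 : (N₀ : ℤ) ∣ ((1 : ℕ) : ℤ) - ((x ^ k : ℕ) : ℤ) := by
        rcases hk1 k hk with h | h
        · rw [Nat.cast_pow]
          exact h
        · exfalso
          have h9 : ((4 : ℕ) : ℤ) ∣ ((1 + x ^ k : ℕ) : ℤ) := by
            refine (Int.natCast_dvd_natCast.2 h4).trans ?_
            rw [Nat.cast_add, Nat.cast_pow]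
            exact h
          have h10 : 4 ∣ 1 + x ^ k := Int.natCast_dvd_natCast.1 h9
          omega
      have h6 := TA1_eq (σ₂ := σ₂) (hpw k) hone (pow_ne_zero _ hx0) one_ne_zero (TA1_mem h01 h5)
      rw [← map_pow, h6, map_one]
  obtain ⟨x₁, hx₁0, hx₁s, hx₁g, hx₁c, hx₁⟩ := hex 1 (Or.inl rfl)
  obtain ⟨x₃, hx₃0, hx₃s, hx₃g, hx₃c, hx₃⟩ := hex 3 (Or.inr rfl)
  obtain ⟨J₁, hJ₁⟩ : ∃ J₁ : primeTo (K := K) M₁, ((J₁ : (FI K)ˣ) : FI K) =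
      ((Ideal.span {(x₁ : 𝓞 K)} : Ideal (𝓞 K)) : FI K) :=
    ⟨⟨uI _ (hspan x₁ hx₁0), coe_mem_primeTo (coe_uI _ _) (hI₁ x₁ hx₁c)⟩, rfl⟩
  obtain ⟨J₃, hJ₃⟩ : ∃ J₃ : primeTo (K := K) M₁, ((J₃ : (FI K)ˣ) : FI K) =
      ((Ideal.span {(x₃ : 𝓞 K)} : Ideal (𝓞 K)) : FI K) :=
    ⟨⟨uI _ (hspan x₃ hx₃0), coe_mem_primeTo (coe_uI _ _) (hI₁ x₃ hx₃c)⟩, rfl⟩
  have hsum : x₁ + x₃ = x₀ * N₀ := by
    have hN1 : 1 ≤ N₀ := Nat.one_le_iff_ne_zero.2 hN₀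
    obtain ⟨n, hn⟩ : ∃ n, N₀ = n + 1 := ⟨N₀ - 1, by omega⟩
    have hne : x₁ ≠ x₃ := by
      intro h
      rw [h] at hx₁s
      omega
    rw [hn] at hx₁ hx₃ ⊢
    rw [Nat.add_sub_cancel] at hx₁ hx₃
    rcases hx₁ with h1 | h1 <;> rcases hx₃ with h3 | h3
    · exact absurd (h1.trans h3.symm) hne
    · rw [h1, h3]; ring
    · rw [h1, h3]; ring
    · exact absurd (h1.trans h3.symm) hne
  have hmem : (x₁ : 𝓞 K) + x₃ ∈ M₁ := by
    apply h01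
    rw [Ideal.mem_span_singleton]
    refine ⟨(x₀ : 𝓞 K), ?_⟩
    have := congrArg (fun n : ℕ => (n : 𝓞 K)) hsum
    push_cast at this
    rw [this]
    ring
  have hX : cls σ₂ M₁ J₃ = cls σ₂ M₁ J₁ * c := TA1_neg hJ₁ hJ₃ hx₁0 hx₃0 hmem hc
  by_cases hz : χ (cls σ₂ M₁ J₁) = z
  · have hz3 : χ (cls σ₂ M₁ J₃) ≠ z := by
      rw [hX, map_mul, hz, hχ]
      intro h
      have h5 := congrArg (fun u : ℂˣ => (u : ℂ)) h
      simp only [Units.val_mul, Units.val_neg, Units.val_one] at h5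
      have h6 : (z : ℂ) = 0 := by linear_combination (-1 / 2 : ℂ) * h5
      exact z.ne_zero h6
    obtain ⟨k1, k2, k3⟩ := key 3 x₃ J₃ (Or.inr rfl) hx₃0 hx₃s hx₃g hJ₃
    exact ⟨3, cls σ₂ M₁ J₃, Or.inr rfl, hz3, k1, k2, k3⟩
  · obtain ⟨k1, k2, k3⟩ := key 1 x₁ J₁ (Or.inl rfl) hx₁0 hx₁s hx₁g hJ₁
    exact ⟨1, cls σ₂ M₁ J₁, Or.inl rfl, hz, k1, k2, k3⟩

end Pool.Agent.STs
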